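import Pool.Agent.Y199.DM.Emb

set_option autoImplicit false

/-! Embeddings of `ℂ` with given values at the algebraic numbers which map given transcendental
numbers near to given algebraic elements. -/

namespace Pool.Agent.L5helper26.DM

open Pool.Agent.H936R2 Pool.Agent.TH838.PR Pool.Agent.Y199.DM

/-- Algebraically independent numbers can be mapped near given algebraic elements by an embedding
which agrees with a given embedding on the algebraic numbers. -/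
theorem emb_agree (p : ℕ) [hp : Fact p.Prime] (τ₀ : ℂ →+* PadicAlgCl p) {m : ℕ} (y : Fin m → ℂ)
    (hy : AlgebraicIndependent ℚ y) (ω : Fin m → PadicAlgCl p) (hω : ∀ j, IsAlgebraic ℚ (ω j)) :
    ∃ τ : ℂ →+* PadicAlgCl p, (∀ x, IsAlgebraic ℚ x → τ x = τ₀ x) ∧ ∀ j, ‖τ (y j) - ω j‖ < 1 := by
  classical
  have hp1 : ‖((p : ℕ) : PadicAlgCl p)‖ < 1 := norm_natCast_p_lt
  obtain ⟨N, hN⟩ : ∃ N : ℕ, ∀ j, ‖((p : ℕ) : PadicAlgCl p) ^ N * τ₀ (y j)‖ < 1 := by
    have hB : ∃ B : ℝ, 1 ≤ B ∧ ∀ j, ‖τ₀ (y j)‖ ≤ B := by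
      refine ⟨1 + ∑ j, ‖τ₀ (y j)‖, ?_, fun j => ?_⟩
      · have : 0 ≤ ∑ j, ‖τ₀ (y j)‖ := Finset.sum_nonneg fun _ _ => norm_nonneg _
        linarith
      · have := Finset.single_le_sum (f := fun j => ‖τ₀ (y j)‖) (fun _ _ => norm_nonneg _)
          (Finset.mem_univ j)
        linarith
    obtain ⟨B, hB1, hB⟩ := hB
    obtain ⟨N, hN⟩ := exists_pow_lt_of_lt_one (show (0 : ℝ) < 1 / B by positivity) hp1
    refine ⟨N, fun j => ?_⟩
    rw [norm_mul, norm_pow]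
    calc ‖((p : ℕ) : PadicAlgCl p)‖ ^ N * ‖τ₀ (y j)‖ ≤
          ‖((p : ℕ) : PadicAlgCl p)‖ ^ N * B :=
          mul_le_mul_of_nonneg_left (hB j) (by positivity)
      _ < (1 / B) * B := mul_lt_mul_of_pos_right hN (by positivity)
      _ = 1 := by field_simp
  obtain ⟨s, hs0, hs⟩ := exists_isTranscendenceBasis_superset (R := ℚ) (s := Set.range y)
    hy.to_subtype_range
  let σ₀ : ℂ →ₐ[ℚ] PadicAlgCl p := τ₀.toRatAlgHom
  have hw0 : AlgebraicIndependent ℚ (fun b : s => σ₀ (b : ℂ)) :=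
    hs.1.map' (f := σ₀) σ₀.toRingHom.injective
  have hw1 : AlgebraicIndependent ℚ
      (fun b : s => algebraMap ℚ (PadicAlgCl p) ((p : ℚ) ^ N) * σ₀ (b : ℂ)) :=
    indep_scale hw0 _ (pow_ne_zero _ (by exact_mod_cast hp.out.ne_zero))
  let w' : s → PadicAlgCl p := fun b => if h : ∃ j, y j = b then ω h.choose else 0
  have hw' : ∀ b, IsAlgebraic ℚ (w' b) := by
    intro b
    by_cases h : ∃ j, y j = b
    · simp only [w', dif_pos h]
      exact hω _
    · simp only [w', dif_neg h]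
      exact isAlgebraic_zero
  have hw : AlgebraicIndependent ℚ
      (fun b : s => w' b + algebraMap ℚ (PadicAlgCl p) ((p : ℚ) ^ N) * σ₀ (b : ℂ)) :=
    Pool.Agent.TH838.PS.indep_shift hw1 w' hw'
  let E : IntermediateField ℚ ℂ := algebraicClosure ℚ ℂ
  let φ : E →ₐ[ℚ] PadicAlgCl p := σ₀.comp E.val
  have hE : Algebra.IsAlgebraic ℚ E := algebraicClosure.isAlgebraic ℚ ℂ
  obtain ⟨τ, hτE, hτs⟩ := exists_extension' (Q := ℚ) (E := E) (C := ℂ) hE φ hs _ hw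
  refine ⟨τ, fun x hx => ?_, fun j => ?_⟩
  · exact hτE ⟨x, mem_algebraicClosure_iff.2 hx⟩
  · have hmem : y j ∈ s := hs0 ⟨j, rfl⟩
    have e2 := hτs ⟨y j, hmem⟩
    have e5 : w' ⟨y j, hmem⟩ = ω j := by
      have h : ∃ j', y j' = ((⟨y j, hmem⟩ : s) : ℂ) := ⟨j, rfl⟩
      simp only [w', dif_pos h]
      exact congrArg ω (hy.injective h.choose_spec)
    have e4 : algebraMap ℚ (PadicAlgCl p) ((p : ℚ) ^ N) = ((p : ℕ) : PadicAlgCl p) ^ N := by
      rw [map_pow, map_natCast]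
    rw [e4, e5] at e2
    have e3 : τ (y j) = ω j + ((p : ℕ) : PadicAlgCl p) ^ N * τ₀ (y j) := e2
    rw [e3, add_sub_cancel_left]
    exact hN j

/-- The version for one transcendental number. -/
theorem emb_agree_one (p : ℕ) [hp : Fact p.Prime] (τ₀ : ℂ →+* PadicAlgCl p) (t : ℂ)
    (ht : Transcendental ℚ t) (ω : PadicAlgCl p) (hω : IsAlgebraic ℚ ω) :
    ∃ τ : ℂ →+* PadicAlgCl p, (∀ x, IsAlgebraic ℚ x → τ x = τ₀ x) ∧ ‖τ t - ω‖ < 1 := by
  obtain ⟨τ, h1, h2⟩ := emb_agree p τ₀ (fun _ : Fin 1 => t)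
    ((algebraicIndependent_unique_type_iff).2 ht) (fun _ => ω) (fun _ => hω)
  exact ⟨τ, h1, h2 0⟩

end Pool.Agent.L5helper26.DM
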