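import Pool.Agent.L5helper26.DM.Fam
import Pool.Agent.L5helper26.DM.Ext

set_option autoImplicit false

/-! Reductions without cycles through critical points: independence of the embedding. -/

namespace Pool.Agent.L5helper26.DM

open MvPolynomial Pool.Agent.H936R2 Pool.Agent.R847.QP Pool.Agent.R847.Gap Pool.Agent.R847.PC
open Pool.Agent.Y199.DM

/-- The reduction of `g` is an endomorphism without cycles through critical points. -/
def Ncc {p : ℕ} [Fact p.Prime] {N : ℕ} (τ : ℂ →+* PadicAlgCl p)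
    (g : Fin (N + 1) → MvPolynomial (Fin (N + 1)) ℂ) : Prop :=
  ∀ fR : Fin (N + 1) → MvPolynomial (Fin (N + 1)) (intR τ),
      (∀ i, map (intR τ).subtype (fR i) = g i) →
      (∀ z : Fin (N + 1) → ResF (PadicAlgCl p),
        (∀ i, eval z (map ((res (PadicAlgCl p)).comp (toBall τ)) (fR i)) = 0) → z = 0) ∧
      ∀ z : Fin (N + 1) → ResF (PadicAlgCl p), z ≠ 0 → ∀ q : ℕ, 0 < q →
        (pt fun i => map ((res (PadicAlgCl p)).comp (toBall τ)) (fR i))^[q] z = z →
          (jac (fun i => map ((res (PadicAlgCl p)).comp (toBall τ)) (fR i)) z).det ≠ 0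

theorem Ncc.agree {p : ℕ} [Fact p.Prime] {N : ℕ} {τ₀ τ : ℂ →+* PadicAlgCl p}
    {g : Fin (N + 1) → MvPolynomial (Fin (N + 1)) ℂ} (h : Ncc τ₀ g)
    (hg : ∀ i κ, τ ((g i).coeff κ) = τ₀ ((g i).coeff κ)) (hi : ∀ i κ, ‖τ ((g i).coeff κ)‖ ≤ 1) :
    Ncc τ g := by
  intro fR hfR
  choose gR hgR using fun i => int_of_coeff (intR τ₀) (g i)
    (fun κ => (mem_intR τ₀ _).2 (by rw [← hg]; exact hi i κ))
  have key : (fun i => map ((res (PadicAlgCl p)).comp (toBall τ)) (fR i)) =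
      fun i => map ((res (PadicAlgCl p)).comp (toBall τ₀)) (gR i) := by
    funext i
    ext κ
    rw [coeff_map, coeff_map, RingHom.comp_apply, RingHom.comp_apply]
    congr 1
    apply Subtype.ext
    rw [toBall_coe, toBall_coe]
    have e1 : (((fR i).coeff κ : intR τ) : ℂ) = (g i).coeff κ := by
      rw [← hfR i, coeff_map]
      rfl
    have e2 : (((gR i).coeff κ : intR τ₀) : ℂ) = (g i).coeff κ := by
      rw [← hgR i, coeff_map]
      rfl
    rw [e1, e2, hg]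
  have h1 := h gR hgR
  refine ⟨fun z hz => h1.1 z fun i => ?_, fun z hz q hq hper => ?_⟩
  · have h2 := congrFun key i
    rw [← h2]
    exact hz i
  · rw [key] at hper ⊢
    exact h1.2 z hz q hq hper

/-- A strictly critically finite endomorphism has no cycles through critical points modulo almost
all primes. -/
theorem ncc_scf {N d : ℕ} (hd : 1 ≤ d) (f : Fin (N + 1) → MvPolynomial (Fin (N + 1)) ℂ)
    (hf : ∀ i, (f i).IsHomogeneous d)
    (h0 : ∀ x : Fin (N + 1) → ℂ, (∀ i, eval x (f i) = 0) → x = 0) (k : ℕ)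
    (D : ℕ → Set (MvPolynomial (Fin (N + 1)) ℂ)) (hch : Chain f k D)
    (hD0 : ∀ z : Fin (N + 1) → ℂ, z ≠ 0 → ∀ g ∈ D 0, eval z g = 0) :
    ∃ s : Finset ℂ, ∀ (p : ℕ) [Fact p.Prime] (τ : ℂ →+* PadicAlgCl p), (∀ y ∈ s, ‖τ y‖ ≤ 1) →
      Ncc τ f := by
  classical
  have hf1 : pt f 0 = 0 := by
    funext i
    change eval 0 (f i) = 0
    have h1 := Pool.Agent.R847.QP.hom_scale (f i) d (hf i) 0 0
    rw [zero_smul, zero_pow (by omega), zero_mul] at h1
    exact h1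
  obtain ⟨s, E, hE, hs⟩ := chain_cert f hf1 k D hch
  obtain ⟨s', hs'⟩ := endo_cert f h0
  refine ⟨s ∪ s', fun p hp τ hτ fR hfR => ⟨fun z hz => ?_, fun z hz q hq hper => ?_⟩⟩
  · exact hs' (intR τ) (fun y hy => hτ y (by simp [Finset.mem_coe.1 hy])) fR hfR _ _ z hz
  · refine hs (intR τ) (fun y hy => hτ y (by simp [Finset.mem_coe.1 hy])) fR hfR _ _ z hz
      (fun g hg => ?_) q hq hper
    obtain ⟨g', hg', j, rfl⟩ := hE g hg
    have h3 : (X j * g' : MvPolynomial (Fin (N + 1)) ℂ) = 0 := by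
      apply MvPolynomial.funext
      intro x
      rw [map_mul, eval_X, map_zero]
      by_cases hx : x = 0
      · rw [hx]
        simp
      · rw [hD0 x hx g' hg', mul_zero]
    rw [h3]
    have h4 : (0 : MvPolynomial (Fin (N + 1)) ℂ) = map (intR τ).subtype 0 := (map_zero _).symm
    rw [h4, ev_map, eval₂_zero]

/-- Members of a family whose parameter is near to the parameter of a member without cycles through
critical points. -/
theorem full_of_ncc {p : ℕ} [hp : Fact p.Prime] (τ : ℂ →+* PadicAlgCl p) {N d : ℕ}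
    (F : ℂ → Fin (N + 1) → MvPolynomial (Fin (N + 1)) ℂ)
    (cF : Fin (N + 1) → (Fin (N + 1) →₀ ℕ) → Polynomial ℂ)
    (hcF : ∀ t i κ, (F t i).coeff κ = (cF i κ).eval t)
    (hF : ∀ t i, (F t i).IsHomogeneous d) (a t : ℂ) (ht : ‖τ t‖ ≤ 1) (hat : ‖τ a - τ t‖ < 1)
    (hc : ∀ i κ k, ‖τ ((cF i κ).coeff k)‖ ≤ 1) (h : Ncc τ (F a)) : Full (F t) := by
  have htα' : ‖τ t - τ a‖ < 1 := by rwa [norm_sub_rev]
  have hαn : ‖τ a‖ ≤ 1 := by
    have h1 : τ a = (τ a - τ t) + τ t := by ring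
    rw [h1]
    exact (IsUltrametricDist.norm_add_le_max _ _).trans (max_le hat.le ht)
  have hev := fun (q : Polynomial ℂ) (hq : ∀ k, ‖τ (q.coeff k)‖ ≤ 1) =>
    eval_near τ q hq t a ht hαn htα'
  have hevα := fun (q : Polynomial ℂ) (hq : ∀ k, ‖τ (q.coeff k)‖ ≤ 1) =>
    (eval_near τ q hq a a hαn hαn (by rw [sub_self, norm_zero]; exact one_pos)).1
  refine full_of_near (d := d) τ (F t) (F a) (hF t) (fun i κ => ?_) (fun i κ => ?_)
    (fun i κ => ?_) h
  · rw [hcF]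
    exact (hev _ (hc i κ)).1
  · rw [hcF]
    exact hevα _ (hc i κ)
  · rw [hcF, hcF]
    exact (hev _ (hc i κ)).2

theorem isAlgebraic_eval {a : ℂ} (ha : IsAlgebraic ℚ a) (q : Polynomial ℂ)
    (hq : ∀ k, IsAlgebraic ℚ (q.coeff k)) : IsAlgebraic ℚ (q.eval a) := by
  rw [Polynomial.eval_eq_sum_range]
  have h1 : ∀ s : Finset ℕ, IsAlgebraic ℚ (∑ i ∈ s, q.coeff i * a ^ i) := by
    intro s
    classical
    induction s using Finset.induction_on with
    | empty => simpa using isAlgebraic_zero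
    | insert i s hi ih =>
      rw [Finset.sum_insert hi]
      exact ((hq i).mul (ha.pow i)).add ih
  exact h1 _

/-- The members of a family with algebraic coefficients near to a strictly critically finite
member, and the members with a transcendental parameter. -/
theorem near_scf2 {N d : ℕ} (hd : 1 ≤ d) (F : ℂ → Fin (N + 1) → MvPolynomial (Fin (N + 1)) ℂ)
    (cF : Fin (N + 1) → (Fin (N + 1) →₀ ℕ) → Polynomial ℂ)
    (hcF : ∀ t i κ, (F t i).coeff κ = (cF i κ).eval t)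
    (hfin : {q : Fin (N + 1) × (Fin (N + 1) →₀ ℕ) | cF q.1 q.2 ≠ 0}.Finite)
    (hF : ∀ t i, (F t i).IsHomogeneous d) (a : ℂ)
    (h0 : ∀ x : Fin (N + 1) → ℂ, (∀ i, eval x (F a i) = 0) → x = 0) (k : ℕ)
    (D : ℕ → Set (MvPolynomial (Fin (N + 1)) ℂ)) (hch : Chain (F a) k D)
    (hD0 : ∀ z : Fin (N + 1) → ℂ, z ≠ 0 → ∀ g ∈ D 0, eval z g = 0) :
    (∃ s : Finset ℂ, ∀ t, Near s a t → Full (F t)) ∧
      (IsAlgebraic ℚ a → (∀ i κ k, IsAlgebraic ℚ ((cF i κ).coeff k)) →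
        ∀ t, Transcendental ℚ t → Full (F t)) := by
  classical
  obtain ⟨s, hs⟩ := ncc_scf (d := d) hd (F a) (hF a) h0 k D hch hD0
  let s1 : Finset ℂ := hfin.toFinset.biUnion fun q =>
    (cF q.1 q.2).support.image fun k => (cF q.1 q.2).coeff k
  have hs1 : ∀ i κ k, (cF i κ).coeff k ≠ 0 → (cF i κ).coeff k ∈ s1 := by
    intro i κ k h
    have h1 : cF i κ ≠ 0 := fun h0 => h (by rw [h0, Polynomial.coeff_zero])
    simp only [s1, Finset.mem_biUnion, Finset.mem_image]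
    exact ⟨(i, κ), (Set.Finite.mem_toFinset hfin).2 h1, k, Polynomial.mem_support_iff.2 h, rfl⟩
  have hint : ∀ (p : ℕ) [Fact p.Prime] (τ : ℂ →+* PadicAlgCl p), (∀ y ∈ s1, ‖τ y‖ ≤ 1) →
      ∀ i κ k, ‖τ ((cF i κ).coeff k)‖ ≤ 1 := by
    intro p _ τ hτ i κ k
    by_cases h : (cF i κ).coeff k = 0
    · rw [h, map_zero, norm_zero]
      exact zero_le_one
    · exact hτ _ (hs1 i κ k h)
  constructor
  · refine ⟨s ∪ s1 ∪ {a}, fun t ht => ?_⟩
    obtain ⟨p, hp, τ, hτ, hlt⟩ := ht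
    have hα : ‖τ a‖ ≤ 1 := hτ a (by simp)
    have h1 : ‖τ t - τ a‖ < 1 := by
      rw [← map_sub]
      exact hlt
    have h2 : ‖τ t‖ ≤ 1 := by
      have h2 : τ t = (τ t - τ a) + τ a := by ring
      rw [h2]
      exact (IsUltrametricDist.norm_add_le_max _ _).trans (max_le h1.le hα)
    exact full_of_ncc (d := d) τ F cF hcF hF a t h2 (by rwa [norm_sub_rev])
      (hint p τ fun y hy => hτ y (by simp [hy])) (hs p τ fun y hy => hτ y (by simp [hy]))
  · intro ha hcalg t ht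
    obtain ⟨B, hB⟩ := Pool.Agent.TH838.PR.emb_finite (s ∪ s1 ∪ {a})
    obtain ⟨p, hpB, hp⟩ := Nat.exists_infinite_primes (B + 1)
    haveI : Fact p.Prime := ⟨hp⟩
    obtain ⟨τ₀, hτ₀⟩ := hB p (by omega)
    have hωalg : IsAlgebraic ℚ (τ₀ a) := by
      have := ha.algHom τ₀.toRatAlgHom
      exact this
    obtain ⟨τ, hτ1, hτ2⟩ := emb_agree_one p τ₀ t ht (τ₀ a) hωalg
    have hτa : τ a = τ₀ a := hτ1 a ha
    have h1 : ‖τ t - τ a‖ < 1 := by
      rw [hτa]
      exact hτ2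
    have hα : ‖τ a‖ ≤ 1 := by
      rw [hτa]
      exact hτ₀ a (by simp)
    have h2 : ‖τ t‖ ≤ 1 := by
      have h2 : τ t = (τ t - τ a) + τ a := by ring
      rw [h2]
      exact (IsUltrametricDist.norm_add_le_max _ _).trans (max_le h1.le hα)
    have hint' : ∀ i κ k, ‖τ ((cF i κ).coeff k)‖ ≤ 1 := by
      intro i κ k
      rw [hτ1 _ (hcalg i κ k)]
      exact hint p τ₀ (fun y hy => hτ₀ y (by simp [hy])) i κ k
    have hevα := fun (q : Polynomial ℂ) (hq : ∀ k, ‖τ (q.coeff k)‖ ≤ 1) =>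
      (eval_near τ q hq a a hα hα (by rw [sub_self, norm_zero]; exact one_pos)).1
    refine full_of_ncc (d := d) τ F cF hcF hF a t h2 (by rwa [norm_sub_rev]) hint' ?_
    refine Ncc.agree (τ₀ := τ₀) (hs p τ₀ fun y hy => hτ₀ y (by simp [hy])) (fun i κ => ?_)
      fun i κ => ?_
    · rw [hcF]
      exact hτ1 _ (isAlgebraic_eval ha _ (hcalg i κ))
    · rw [hcF]
      exact hevα _ (hint' i κ)

end Pool.Agent.L5helper26.DM
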