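import Pool.Agent.L5helper26.DM.Fix

set_option autoImplicit false

/-! The backward orbit of a noncritical fixed point of a rational function of one variable. -/

namespace Pool.Agent.L5helper26.DM

open MvPolynomial Pool.Agent.H936R2 Pool.Agent.R847.PC

/-- The determinant of two vectors. -/
def cross (a b : Fin 2 → ℂ) : ℂ := a 0 * b 1 - a 1 * b 0

theorem par_of_cross {a b : Fin 2 → ℂ} (ha : a ≠ 0) (hb : b ≠ 0) (h : cross a b = 0) :
    ∃ δ : ℂ, δ ≠ 0 ∧ a = δ • b := by
  unfold cross at h
  by_cases hb0 : b 0 = 0
  · have hb1 : b 1 ≠ 0 := by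
      intro hb1
      apply hb
      funext i
      fin_cases i
      · exact hb0
      · exact hb1
    have ha0 : a 0 = 0 := by
      rw [hb0, mul_zero, sub_zero] at h
      exact (mul_eq_zero.1 h).resolve_right hb1
    have ha1 : a 1 ≠ 0 := by
      intro ha1
      apply ha
      funext i
      fin_cases i
      · exact ha0
      · exact ha1
    refine ⟨a 1 / b 1, div_ne_zero ha1 hb1, ?_⟩
    funext i
    fin_cases i
    · simp [ha0, hb0]
    · simp [div_mul_cancel₀ _ hb1]
  · have ha0 : a 0 ≠ 0 := by
      intro ha0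
      rw [ha0, zero_mul, zero_sub, neg_eq_zero] at h
      have ha1 := (mul_eq_zero.1 h).resolve_right hb0
      apply ha
      funext i
      fin_cases i
      · exact ha0
      · exact ha1
    refine ⟨a 0 / b 0, div_ne_zero ha0 hb0, ?_⟩
    funext i
    fin_cases i
    · simp [div_mul_cancel₀ _ hb0]
    · simp only [Fin.mk_one, Pi.smul_apply, smul_eq_mul]
      field_simp
      linear_combination -h

theorem root_alg (G : Polynomial ℂ) (hG : G ≠ 0) (halg : ∀ k, IsAlgebraic ℚ (G.coeff k)) (z : ℂ)
    (hz : G.eval z = 0) : IsAlgebraic ℚ z := by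
  have h1 : G ∈ Polynomial.lifts (algebraMap (algebraicClosure ℚ ℂ) ℂ) := by
    rw [Polynomial.lifts_iff_coeff_lifts]
    intro k
    exact ⟨⟨G.coeff k, mem_algebraicClosure_iff.2 (halg k)⟩, rfl⟩
  obtain ⟨G', hG'⟩ := (Polynomial.mem_lifts _).1 h1
  have h2 : IsAlgebraic (algebraicClosure ℚ ℂ) z := by
    refine ⟨G', ?_, ?_⟩
    · rintro rfl
      apply hG
      rw [← hG', Polynomial.map_zero]
    · rw [← hG', Polynomial.eval_map_algebraMap] at hz
      exact hz
  have h3 : Algebra.IsAlgebraic ℚ (algebraicClosure ℚ ℂ) := algebraicClosure.isAlgebraic ℚ ℂ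
  exact h2.restrictScalars ℚ

theorem dh_alg (P : MvPolynomial (Fin 2) ℂ) (hP : ∀ κ, IsAlgebraic ℚ (P.coeff κ)) (k : ℕ) :
    IsAlgebraic ℚ ((dh P).coeff k) := by
  have h1 : P ∈ Set.range (map (σ := Fin 2) (algebraMap (algebraicClosure ℚ ℂ) ℂ)) := by
    rw [mem_range_map_iff_coeffs_subset]
    intro c hc
    rw [Finset.mem_coe, mem_coeffs_iff] at hc
    obtain ⟨κ, -, rfl⟩ := hc
    exact ⟨⟨P.coeff κ, mem_algebraicClosure_iff.2 (hP κ)⟩, rfl⟩
  obtain ⟨P', rfl⟩ := h1
  rw [map_dh, Polynomial.coeff_map]
  exact mem_algebraicClosure_iff.1 (Subtype.mem _)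

theorem alg_C_mul_sub {P Q : Polynomial ℂ} {a b : ℂ} (ha : IsAlgebraic ℚ a) (hb : IsAlgebraic ℚ b)
    (hP : ∀ k, IsAlgebraic ℚ (P.coeff k)) (hQ : ∀ k, IsAlgebraic ℚ (Q.coeff k)) (k : ℕ) :
    IsAlgebraic ℚ ((Polynomial.C a * P - Polynomial.C b * Q).coeff k) := by
  rw [Polynomial.coeff_sub, Polynomial.coeff_C_mul, Polynomial.coeff_C_mul]
  exact (ha.mul (hP k)).sub (hb.mul (hQ k))

/-- Algebraic vectors. -/
def Alg (v : Fin 2 → ℂ) : Prop := v ≠ 0 ∧ ∀ i, IsAlgebraic ℚ (v i)

theorem alg_affine {z : ℂ} (hz : IsAlgebraic ℚ z) : Alg ![z, 1] := by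
  refine ⟨fun h => ?_, fun i => ?_⟩
  · have := congrFun h 1
    simp at this
  · fin_cases i
    · exact hz
    · exact isAlgebraic_one

theorem alg_infinity : Alg ![1, 0] := by
  refine ⟨fun h => ?_, fun i => ?_⟩
  · have := congrFun h 0
    simp at this
  · fin_cases i
    · exact isAlgebraic_one
    · exact isAlgebraic_zero

section

variable {d : ℕ} (F : Fin 2 → MvPolynomial (Fin 2) ℂ) (hF : ∀ i, (F i).IsHomogeneous d)
  (halg : ∀ i κ, IsAlgebraic ℚ ((F i).coeff κ))
  (h0 : ∀ x : Fin 2 → ℂ, (∀ i, eval x (F i) = 0) → x = 0)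

include hF in
theorem pt_infinity : pt F ![1, 0] = ![(dh (F 0)).coeff d, (dh (F 1)).coeff d] := by
  funext i
  fin_cases i
  · exact (dh_coeff (F 0) d (hF 0)).2.symm
  · exact (dh_coeff (F 1) d (hF 1)).2.symm

include hF halg in
/-- Preimages. -/
theorem exists_preimage (hd : 1 ≤ d) (B : Fin 2 → ℂ) (hB : Alg B) :
    ∃ B' : Fin 2 → ℂ, Alg B' ∧ cross (pt F B') B = 0 := by
  let G : Polynomial ℂ := Polynomial.C (B 1) * dh (F 0) - Polynomial.C (B 0) * dh (F 1)
  have hGalg : ∀ k, IsAlgebraic ℚ (G.coeff k) :=
    alg_C_mul_sub (hB.2 1) (hB.2 0) (dh_alg _ (halg 0)) (dh_alg _ (halg 1))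
  by_cases hc : G.coeff d = 0
  · refine ⟨![1, 0], alg_infinity, ?_⟩
    rw [pt_infinity F hF]
    simp only [G, Polynomial.coeff_sub, Polynomial.coeff_C_mul] at hc
    simp only [cross, Matrix.cons_val_zero, Matrix.cons_val_one]
    linear_combination hc
  · have hG0 : G ≠ 0 := by
      intro h
      rw [h, Polynomial.coeff_zero] at hc
      exact hc rfl
    have hdeg : G.degree ≠ 0 := by
      intro h
      have h1 : G.natDegree = 0 := Polynomial.natDegree_eq_of_degree_eq_some h
      have h2 := Polynomial.le_natDegree_of_ne_zero hc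
      omega
    obtain ⟨z, hz⟩ := IsAlgClosed.exists_root G hdeg
    rw [Polynomial.IsRoot.def] at hz
    refine ⟨![z, 1], alg_affine (root_alg G hG0 hGalg z hz), ?_⟩
    rw [pt_affine]
    simp only [G, Polynomial.eval_sub, Polynomial.eval_mul, Polynomial.eval_C] at hz
    simp only [cross, Matrix.cons_val_zero, Matrix.cons_val_one]
    linear_combination hz

include hF halg h0 in
/-- The noncritical fixed point and another preimage. -/
theorem exists_start (hd : 2 ≤ d) : ∃ z w : Fin 2 → ℂ, Alg z ∧ Alg w ∧ cross (pt F z) z = 0 ∧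
    (jac F z).det ≠ 0 ∧ cross (pt F w) z = 0 ∧ cross w z ≠ 0 := by
  have hd0 : (d : ℂ) ≠ 0 := Nat.cast_ne_zero.2 (by omega)
  rcases exists_fixed hd F hF h0 with ⟨ζ, h1, h2, h3⟩ | ⟨h1, h2, h3⟩
  · -- finite fixed point
    let G : Polynomial ℂ := Polynomial.C 1 * dh (F 0) - Polynomial.C ζ * dh (F 1)
    have hGζ : G.eval ζ = 0 := by
      simp only [G, Polynomial.eval_sub, Polynomial.eval_mul, Polynomial.eval_C]
      linear_combination h1
    have hGd : G.derivative.eval ζ ≠ 0 := by
      simp only [G, Polynomial.derivative_sub, Polynomial.derivative_C_mul, Polynomial.eval_sub,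
        Polynomial.eval_mul, Polynomial.eval_C, one_mul]
      exact h3
    have hG0 : G ≠ 0 := by
      intro h
      rw [h] at hGd
      simp at hGd
    -- the fixed point is algebraic
    have hζ : IsAlgebraic ℚ ζ := by
      let R : Polynomial ℂ := Polynomial.X * dh (F 1) - dh (F 0)
      have hR : R.eval ζ = 0 := by
        simp only [R, Polynomial.eval_sub, Polynomial.eval_mul, Polynomial.eval_X]
        linear_combination -h1
      refine root_alg R ?_ (fun k => ?_) ζ hR
      · intro h
        -- then every point is fixed and `F` has a common zero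
        have h4 : ∀ z, (dh (F 0)).eval z = z * (dh (F 1)).eval z := by
          intro z
          have h5 := congrArg (Polynomial.eval z) h
          simp only [R, Polynomial.eval_sub, Polynomial.eval_mul, Polynomial.eval_X,
            Polynomial.eval_zero] at h5
          linear_combination -h5
        have h6 : (dh (F 1)).degree = 0 := by
          by_contra hdeg
          obtain ⟨z, hz⟩ := IsAlgClosed.exists_root _ hdeg
          rw [Polynomial.IsRoot.def] at hz
          have h7 := h0 ![z, 1] (fun i => by
            have h8 := congrFun (pt_affine F z) i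
            change eval ![z, 1] (F i) = _ at h8
            rw [h8]
            fin_cases i
            · simp [h4, hz]
            · simp [hz])
          have h8 := congrFun h7 1
          simp at h8
        have h7 : (dh (F 1)).natDegree = 0 := Polynomial.natDegree_eq_of_degree_eq_some h6
        have h8 : dh (F 0) = Polynomial.X * dh (F 1) := by
          have h9 : R = 0 := h
          simp only [R] at h9
          linear_combination -h9
        have h9 := h0 ![1, 0] (fun i => by
          have h10 := congrFun (pt_infinity F hF) i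
          change eval ![1, 0] (F i) = _ at h10
          rw [h10]
          fin_cases i
          · simp only [Fin.zero_eta, Matrix.cons_val_zero]
            rw [h8]
            apply Polynomial.coeff_eq_zero_of_natDegree_lt
            refine (Polynomial.natDegree_mul_le).trans_lt ?_
            rw [h7, Polynomial.natDegree_X]
            omega
          · change (dh (F 1)).coeff d = 0
            apply Polynomial.coeff_eq_zero_of_natDegree_lt
            rw [h7]
            omega)
        have h10 := congrFun h9 0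
        simp at h10
      · simp only [R, Polynomial.coeff_sub]
        refine IsAlgebraic.sub ?_ (dh_alg _ (halg 0) k)
        rcases k with _ | k
        · rw [Polynomial.mul_coeff_zero, Polynomial.coeff_X_zero, zero_mul]
          exact isAlgebraic_zero
        · rw [Polynomial.coeff_X_mul]
          exact dh_alg _ (halg 1) k
    have hGalg : ∀ k, IsAlgebraic ℚ (G.coeff k) :=
      alg_C_mul_sub isAlgebraic_one hζ (dh_alg _ (halg 0)) (dh_alg _ (halg 1))
    have hz1 : cross (pt F ![ζ, 1]) ![ζ, 1] = 0 := by
      rw [pt_affine]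
      simp only [cross, Matrix.cons_val_zero, Matrix.cons_val_one]
      linear_combination h1
    have hz2 : (jac F ![ζ, 1]).det ≠ 0 := by
      rw [jac_affine F hF, h1]
      have h4 : (dh (F 0)).derivative.eval ζ * (dh (F 1)).eval ζ -
          ζ * (dh (F 1)).eval ζ * (dh (F 1)).derivative.eval ζ =
          (dh (F 1)).eval ζ * ((dh (F 0)).derivative.eval ζ -
            ζ * (dh (F 1)).derivative.eval ζ) := by ring
      rw [h4]
      exact mul_ne_zero hd0 (mul_ne_zero h2 h3)
    by_cases hc : G.coeff d = 0
    · refine ⟨![ζ, 1], ![1, 0], alg_affine hζ, alg_infinity, hz1, hz2, ?_, ?_⟩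
      · rw [pt_infinity F hF]
        simp only [G, Polynomial.coeff_sub, Polynomial.coeff_C_mul] at hc
        simp only [cross, Matrix.cons_val_zero, Matrix.cons_val_one]
        linear_combination hc
      · simp [cross]
    · have hGn : d ≤ G.natDegree := Polynomial.le_natDegree_of_ne_zero hc
      obtain ⟨G₁, hG₁⟩ := Polynomial.dvd_iff_isRoot.2 (show G.IsRoot ζ from hGζ)
      have hG₁0 : G₁ ≠ 0 := by
        rintro rfl
        rw [mul_zero] at hG₁
        exact hG0 hG₁
      have hn : G.natDegree = 1 + G₁.natDegree := by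
        rw [hG₁, Polynomial.natDegree_mul (Polynomial.X_sub_C_ne_zero ζ) hG₁0,
          Polynomial.natDegree_X_sub_C]
      have hdeg : G₁.degree ≠ 0 := by
        intro h
        have h1 : G₁.natDegree = 0 := Polynomial.natDegree_eq_of_degree_eq_some h
        omega
      obtain ⟨w, hw⟩ := IsAlgClosed.exists_root G₁ hdeg
      rw [Polynomial.IsRoot.def] at hw
      have hGw : G.eval w = 0 := by rw [hG₁, Polynomial.eval_mul, hw, mul_zero]
      have hwζ : w ≠ ζ := by
        rintro rfl
        apply hGd
        rw [hG₁, Polynomial.derivative_mul, Polynomial.eval_add, Polynomial.eval_mul,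
          Polynomial.eval_mul, hw]
        simp
      refine ⟨![ζ, 1], ![w, 1], alg_affine hζ, alg_affine (root_alg G hG0 hGalg w hGw), hz1, hz2,
        ?_, ?_⟩
      · rw [pt_affine]
        simp only [G, Polynomial.eval_sub, Polynomial.eval_mul, Polynomial.eval_C] at hGw
        simp only [cross, Matrix.cons_val_zero, Matrix.cons_val_one]
        linear_combination hGw
      · simp only [cross, Matrix.cons_val_zero, Matrix.cons_val_one]
        intro h
        apply hwζ
        linear_combination h
  · -- the fixed point at infinity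
    have hQ0 : dh (F 1) ≠ 0 := by
      intro h
      rw [h, Polynomial.coeff_zero] at h3
      exact h3 rfl
    have hdeg : (dh (F 1)).degree ≠ 0 := by
      intro h
      have h4 : (dh (F 1)).natDegree = 0 := Polynomial.natDegree_eq_of_degree_eq_some h
      have h5 := Polynomial.le_natDegree_of_ne_zero h3
      omega
    obtain ⟨w, hw⟩ := IsAlgClosed.exists_root _ hdeg
    rw [Polynomial.IsRoot.def] at hw
    refine ⟨![1, 0], ![w, 1], alg_infinity,
      alg_affine (root_alg _ hQ0 (dh_alg _ (halg 1)) w hw), ?_, ?_, ?_, ?_⟩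
    · rw [pt_infinity F hF]
      simp [cross, h1]
    · rw [jac_infinity (by omega) F hF, h1, mul_zero, sub_zero]
      exact mul_ne_zero hd0 (mul_ne_zero h2 h3)
    · rw [pt_affine]
      simp [cross, hw]
    · simp [cross]

end

end Pool.Agent.L5helper26.DM
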