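import Pool.Agent.L5helper26.DM.Ext
import Pool.Agent.Y199.DM.Orb

set_option autoImplicit false

/-! Embeddings which map a transcendental number near to a given algebraic number, and given numbers
to integral elements: possible for all but finitely many of the algebraic numbers. -/

namespace Pool.Agent.L5helper26.DM

open Pool.Agent.H936R2 Pool.Agent.TH838.PR Pool.Agent.Y199.DM

theorem quot_form {t : ℂ} (ht : Transcendental ℚ t) (c : IntermediateField.adjoin ℚ {t}) :
    ∃ r s : Polynomial ℚ, s ≠ 0 ∧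
      (c : ℂ) * (s.map (algebraMap ℚ ℂ)).eval t = (r.map (algebraMap ℚ ℂ)).eval t := by
  obtain ⟨r, s, h⟩ := (IntermediateField.mem_adjoin_simple_iff ℚ (c : ℂ)).1 c.2
  have he : ∀ q : Polynomial ℚ, (q.map (algebraMap ℚ ℂ)).eval t = Polynomial.aeval t q :=
    fun q => Polynomial.eval_map_algebraMap q t
  by_cases hs : s = 0
  · refine ⟨0, 1, one_ne_zero, ?_⟩
    rw [h, hs]
    simp
  · refine ⟨r, s, hs, ?_⟩
    have hne : Polynomial.aeval t s ≠ 0 := fun h0 => ht ⟨s, hs, h0⟩
    rw [he, he, h, div_mul_cancel₀ _ hne]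

theorem emb_near_transc (Y : Finset ℂ) (t : ℂ) (ht : Transcendental ℚ t) :
    ∃ B₀ : Finset ℂ, ∀ b : ℂ, IsAlgebraic ℚ b → b ∉ B₀ → ∀ Y' : Finset ℂ,
      (∀ y ∈ Y', IsAlgebraic ℚ y) → ∃ (p : ℕ) (_ : Fact p.Prime) (τ : ℂ →+* PadicAlgCl p),
        (∀ y ∈ Y, ‖τ y‖ ≤ 1) ∧ (∀ y ∈ Y', ‖τ y‖ ≤ 1) ∧ ‖τ (t - b)‖ < 1 := by
  classical
  set K := IntermediateField.adjoin ℚ {t} with hK
  let R := Algebra.adjoin K (Y : Set ℂ)
  have hfg : Algebra.FiniteType K R :=
    (Subalgebra.fg_iff_finiteType _).1 (Subalgebra.fg_adjoin_finset Y)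
  obtain ⟨r, g, hinj, hint⟩ := exists_integral_inj_algHom_of_fg K R
  have hmem : ∀ x ∈ Y, x ∈ R := fun x hx => Algebra.subset_adjoin hx
  have h1 : ∀ x : Y, ∃ f : Polynomial (MvPolynomial (Fin r) K), f.Monic ∧
      Polynomial.eval₂ g.toRingHom (⟨x, hmem x x.2⟩ : R) f = 0 := fun x => hint _
  choose f hf h0 using h1
  let u : Fin r → ℂ := fun j => ((g (MvPolynomial.X j) : R) : ℂ)
  have hu1 : (MvPolynomial.aeval u : MvPolynomial (Fin r) K →ₐ[K] ℂ) = R.val.comp g := by
    apply MvPolynomial.algHom_ext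
    intro i
    simp [u]
  have hu : AlgebraicIndependent K u := by
    rw [algebraicIndependent_iff_injective_aeval, hu1, AlgHom.coe_comp]
    exact Subtype.val_injective.comp hinj
  have htind : AlgebraicIndependent ℚ (fun _ : Fin 1 => t) :=
    (algebraicIndependent_unique_type_iff).2 ht
  have hall : AlgebraicIndependent ℚ (Sum.elim u (fun _ : Fin 1 => t)) :=
    htind.sumElim_of_tower (S := K) (by
      rintro _ ⟨_, rfl⟩
      exact ⟨⟨t, IntermediateField.mem_adjoin_simple_self ℚ t⟩, rfl⟩) hu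
  -- the coefficients
  let C : Finset K := Finset.univ.biUnion fun x : Y => (f x).support.biUnion fun i =>
    ((f x).coeff i).support.image fun e => MvPolynomial.coeff e ((f x).coeff i)
  have hC : ∀ x i e, MvPolynomial.coeff e ((f x).coeff i) ≠ 0 →
      MvPolynomial.coeff e ((f x).coeff i) ∈ C := by
    intro x i e he
    have hi : (f x).coeff i ≠ 0 := by
      intro h
      rw [h, MvPolynomial.coeff_zero] at he
      exact he rfl
    refine Finset.mem_biUnion.2 ⟨x, Finset.mem_univ _, Finset.mem_biUnion.2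
      ⟨i, Polynomial.mem_support_iff.2 hi, Finset.mem_image.2
        ⟨e, MvPolynomial.mem_support_iff.2 he, rfl⟩⟩⟩
  choose num den hden hq using fun c : K => quot_form ht c
  refine ⟨C.biUnion fun c => ((den c).map (algebraMap ℚ ℂ)).roots.toFinset,
    fun b hb hbB Y' hY' => ?_⟩
  have hdb : ∀ c ∈ C, ((den c).map (algebraMap ℚ ℂ)).eval b ≠ 0 := by
    intro c hc h
    apply hbB
    refine Finset.mem_biUnion.2 ⟨c, hc, ?_⟩
    rw [Multiset.mem_toFinset, Polynomial.mem_roots']
    exact ⟨(Polynomial.map_ne_zero_iff (algebraMap ℚ ℂ).injective).2 (hden c), h⟩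
  let Z : Finset ℂ := Y' ∪ {b} ∪
    C.image (fun c => (((den c).map (algebraMap ℚ ℂ)).eval b)⁻¹) ∪
    (C.biUnion fun c => (num c).support.image fun k => (((num c).map (algebraMap ℚ ℂ)).coeff k)) ∪
    (C.biUnion fun c => (den c).support.image fun k => (((den c).map (algebraMap ℚ ℂ)).coeff k))
  obtain ⟨B, hB⟩ := emb_finite Z
  obtain ⟨p, hpB, hp⟩ := Nat.exists_infinite_primes (B + 1)
  have hpf : Fact p.Prime := ⟨hp⟩
  obtain ⟨τ₀, hτ₀⟩ := hB p (by omega)
  let e : Fin r ⊕ Fin 1 ≃ Fin (r + 1) := finSumFinEquiv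
  have hωalg : IsAlgebraic ℚ (τ₀ b) := by
    have := hb.algHom τ₀.toRatAlgHom
    exact this
  obtain ⟨τ, hagree, hnear⟩ := emb_agree p τ₀
    (fun i : Fin (r + 1) => (Sum.elim u (fun _ : Fin 1 => t)) (e.symm i))
    (hall.comp e.symm e.symm.injective)
    (fun i => Sum.elim (fun _ => (0 : PadicAlgCl p)) (fun _ => τ₀ b) (e.symm i)) (fun i => by
      rcases e.symm i with j | j
      · exact isAlgebraic_zero
      · exact hωalg)
  have hut : ∀ j, ‖τ (u j)‖ < 1 := by
    intro j
    have := hnear (e (Sum.inl j))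
    simp only [Equiv.symm_apply_apply, Sum.elim_inl, sub_zero] at this
    exact this
  have htt : ‖τ t - τ₀ b‖ < 1 := by
    have := hnear (e (Sum.inr 0))
    simp only [Equiv.symm_apply_apply, Sum.elim_inr] at this
    exact this
  have hτb : τ b = τ₀ b := hagree b hb
  have htb : ‖τ t - τ b‖ < 1 := by rw [hτb]; exact htt
  have hbn : ‖τ b‖ ≤ 1 := by
    rw [hτb]
    exact hτ₀ b (by simp [Z])
  have htn : ‖τ t‖ ≤ 1 := by
    have h2 : τ t = (τ t - τ b) + τ b := by ring
    rw [h2]
    exact (IsUltrametricDist.norm_add_le_max _ _).trans (max_le htb.le hbn)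
  have hratagree : ∀ q : ℚ, τ (algebraMap ℚ ℂ q) = τ₀ (algebraMap ℚ ℂ q) :=
    fun q => hagree _ (isAlgebraic_algebraMap q)
  have hnum : ∀ c ∈ C, ∀ k, ‖τ (((num c).map (algebraMap ℚ ℂ)).coeff k)‖ ≤ 1 := by
    intro c hc k
    by_cases hk : k ∈ (num c).support
    · rw [Polynomial.coeff_map, hratagree, ← Polynomial.coeff_map]
      refine hτ₀ _ ?_
      simp only [Z, Finset.mem_union, Finset.mem_biUnion, Finset.mem_image]
      exact Or.inl (Or.inr ⟨c, hc, k, hk, rfl⟩)
    · rw [Polynomial.coeff_map, Polynomial.notMem_support_iff.1 hk, map_zero, map_zero, norm_zero]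
      exact zero_le_one
  have hdenc : ∀ c ∈ C, ∀ k, ‖τ (((den c).map (algebraMap ℚ ℂ)).coeff k)‖ ≤ 1 := by
    intro c hc k
    by_cases hk : k ∈ (den c).support
    · rw [Polynomial.coeff_map, hratagree, ← Polynomial.coeff_map]
      refine hτ₀ _ ?_
      simp only [Z, Finset.mem_union, Finset.mem_biUnion, Finset.mem_image]
      exact Or.inr ⟨c, hc, k, hk, rfl⟩
    · rw [Polynomial.coeff_map, Polynomial.notMem_support_iff.1 hk, map_zero, map_zero, norm_zero]
      exact zero_le_one
  -- the coefficients are integral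
  have hCint : ∀ c ∈ C, ‖τ (c : ℂ)‖ ≤ 1 := by
    intro c hc
    have h2 := eval_near τ _ (hdenc c hc) t b htn hbn htb
    have h3 := (eval_near τ _ (hnum c hc) t b htn hbn htb).1
    have h4 : ‖τ (((den c).map (algebraMap ℚ ℂ)).eval b)‖ = 1 := by
      have h5 := (eval_near τ _ (hdenc c hc) b b hbn hbn (by rw [sub_self, norm_zero]; exact one_pos)).1
      have hbalg : IsAlgebraic ℚ (((den c).map (algebraMap ℚ ℂ)).eval b) := by
        rw [Polynomial.eval_map_algebraMap]
        have h7 : Polynomial.aeval b (den c) ∈ algebraicClosure ℚ ℂ := by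
          have h8 : b ∈ algebraicClosure ℚ ℂ := mem_algebraicClosure_iff.2 hb
          have h9 : Polynomial.aeval b (den c) =
              ((Polynomial.aeval (⟨b, h8⟩ : algebraicClosure ℚ ℂ) (den c) :
                algebraicClosure ℚ ℂ) : ℂ) := by
            have := Polynomial.aeval_algebraMap_apply ℂ (⟨b, h8⟩ : algebraicClosure ℚ ℂ) (den c)
            exact this
          rw [h9]
          exact Subtype.mem _
        exact mem_algebraicClosure_iff.1 h7
      have h6 : ‖τ (((den c).map (algebraMap ℚ ℂ)).eval b)⁻¹‖ ≤ 1 := by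
        rw [hagree _ hbalg.inv]
        refine hτ₀ _ ?_
        simp only [Z, Finset.mem_union, Finset.mem_image]
        exact Or.inl (Or.inl (Or.inr ⟨c, hc, rfl⟩))
      refine le_antisymm h5 ?_
      rw [map_inv₀, norm_inv] at h6
      exact (inv_le_one₀ (norm_pos_iff.2 ((map_ne_zero τ).2 (hdb c hc)))).1 h6
    have h5 : ‖τ (((den c).map (algebraMap ℚ ℂ)).eval t)‖ = 1 := by
      refine le_antisymm h2.1 ?_
      by_contra hlt
      push Not at hlt
      have h6 : τ (((den c).map (algebraMap ℚ ℂ)).eval b) =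
          τ (((den c).map (algebraMap ℚ ℂ)).eval t) -
            (τ (((den c).map (algebraMap ℚ ℂ)).eval t) -
              τ (((den c).map (algebraMap ℚ ℂ)).eval b)) := by ring
      have h7 := norm_sub_le_max' (τ (((den c).map (algebraMap ℚ ℂ)).eval t))
        (τ (((den c).map (algebraMap ℚ ℂ)).eval t) - τ (((den c).map (algebraMap ℚ ℂ)).eval b))
      rw [← h6, h4] at h7
      exact absurd h7 (not_le.2 (max_lt hlt h2.2))
    have h6 := congrArg (fun z => ‖τ z‖) (hq c)
    simp only [map_mul, norm_mul, h5, mul_one] at h6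
    rw [h6]
    exact h3
  refine ⟨p, hpf, τ, fun x hx => ?_, fun y hy => ?_, by rw [map_sub]; exact htb⟩
  · let ρ : R →+* PadicAlgCl p := τ.comp R.val.toRingHom
    have h3 : ρ (Polynomial.eval₂ g.toRingHom (⟨x, hmem x hx⟩ : R) (f ⟨x, hx⟩)) = 0 := by
      rw [h0 ⟨x, hx⟩, map_zero]
    rw [Polynomial.hom_eval₂] at h3
    have h4 : ρ (⟨x, hmem x hx⟩ : R) = τ x := rfl
    rw [h4] at h3
    refine norm_le_one_of_monic ((f ⟨x, hx⟩).map (ρ.comp g.toRingHom)) ((hf _).map _)
      (fun i => ?_) (by rw [Polynomial.eval_map]; exact h3)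
    rw [Polynomial.coeff_map]
    have h5 : ∀ c : MvPolynomial (Fin r) K, (ρ.comp g.toRingHom) c =
        MvPolynomial.eval₂ (τ.comp (algebraMap K ℂ)) (fun j => τ (u j)) c := by
      intro c
      have h6 : (ρ.comp g.toRingHom) =
          MvPolynomial.eval₂Hom (τ.comp (algebraMap K ℂ)) (fun j => τ (u j)) := by
        apply MvPolynomial.ringHom_ext
        · intro k
          rw [MvPolynomial.coe_eval₂Hom, MvPolynomial.eval₂_C]
          change τ ((g (MvPolynomial.C k) : R) : ℂ) = τ (algebraMap K ℂ k)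
          congr 1
          have h7 : g (MvPolynomial.C k) = algebraMap K R k := g.commutes k
          rw [h7]
          rfl
        · intro j
          rw [MvPolynomial.coe_eval₂Hom, MvPolynomial.eval₂_X]
          rfl
      rw [h6]
      rfl
    rw [h5, MvPolynomial.eval₂_eq']
    apply IsUltrametricDist.norm_sum_le_of_forall_le_of_nonneg zero_le_one
    intro e' he'
    rw [norm_mul, norm_prod]
    refine mul_le_one₀ (hCint _ (hC _ i e' (MvPolynomial.mem_support_iff.1 he'))) (by positivity) ?_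
    apply Finset.prod_le_one
    · intro j _
      positivity
    · intro j _
      rw [norm_pow]
      exact pow_le_one₀ (norm_nonneg _) (hut j).le
  · rw [hagree y (hY' y hy)]
    exact hτ₀ y (by simp [Z, hy])

end Pool.Agent.L5helper26.DM
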