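import Pool.Agent.L5helper26.DM.TameEx
import Pool.Agent.L5helper26.DM.Tr

set_option autoImplicit false

/-! Rational functions of one variable: a noncritical fixed point and its backward orbit. -/

namespace Pool.Agent.L5helper26.DM

open MvPolynomial Pool.Agent.H936R2 Pool.Agent.R847.PC

/-- Dehomogenization of binary forms. -/
noncomputable def dh {R : Type} [CommRing R] (P : MvPolynomial (Fin 2) R) : Polynomial R :=
  aeval ![Polynomial.X, 1] P

theorem eval_dh (P : MvPolynomial (Fin 2) ℂ) (z : ℂ) : (dh P).eval z = eval ![z, 1] P := by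
  have h : (Polynomial.evalRingHom z).comp (aeval ![Polynomial.X, 1] :
      MvPolynomial (Fin 2) ℂ →ₐ[ℂ] Polynomial ℂ).toRingHom = eval ![z, 1] := by
    apply MvPolynomial.ringHom_ext
    · intro c
      simp
    · intro i
      fin_cases i <;> simp
  exact RingHom.congr_fun h P

theorem map_dh {R S : Type} [CommRing R] [CommRing S] (φ : R →+* S) (P : MvPolynomial (Fin 2) R) :
    dh (map φ P) = (dh P).map φ := by
  induction P using MvPolynomial.induction_on with
  | C a => simp [dh]
  | add p q hp hq =>
    unfold dh at *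
    rw [map_add, map_add, map_add, Polynomial.map_add, hp, hq]
  | mul_X p i hp =>
    unfold dh at *
    rw [map_mul, map_mul, map_mul, Polynomial.map_mul, hp, map_X, aeval_X, aeval_X]
    congr 1
    fin_cases i <;> simp

theorem derivative_dh (P : MvPolynomial (Fin 2) ℂ) :
    Polynomial.derivative (dh P) = dh (pderiv 0 P) := by
  induction P using MvPolynomial.induction_on with
  | C a =>
    unfold dh
    rw [pderiv_C, map_zero, aeval_C, ← Polynomial.C_eq_algebraMap, Polynomial.derivative_C]
  | add p q hp hq =>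
    unfold dh at *
    rw [map_add, map_add, map_add, map_add, hp, hq]
  | mul_X p i hp =>
    unfold dh at *
    rw [map_mul, aeval_X, Polynomial.derivative_mul, hp, Derivation.leibniz, map_add, smul_eq_mul,
      smul_eq_mul, map_mul, map_mul, aeval_X]
    fin_cases i
    · simp
      ring
    · simp

/-- The top coefficient. -/
theorem dh_coeff (P : MvPolynomial (Fin 2) ℂ) (e : ℕ) (hP : P.IsHomogeneous e) :
    (dh P).natDegree ≤ e ∧ (dh P).coeff e = eval ![1, 0] P := by
  have hmon : ∀ κ : Fin 2 →₀ ℕ, ∀ c : ℂ, dh (monomial κ c) = Polynomial.C c * Polynomial.X ^ κ 0 := by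
    intro κ c
    unfold dh
    rw [aeval_monomial, Finsupp.prod_fintype _ _ (fun i => pow_zero _), Fin.prod_univ_two]
    simp
  have hsum : dh P = ∑ κ ∈ P.support, Polynomial.C (P.coeff κ) * Polynomial.X ^ κ 0 := by
    conv_lhs => rw [P.as_sum]
    have h1 : ∀ s : Finset (Fin 2 →₀ ℕ), dh (∑ κ ∈ s, monomial κ (P.coeff κ)) =
        ∑ κ ∈ s, dh (monomial κ (P.coeff κ)) := by
      intro s
      unfold dh
      rw [map_sum]
    rw [h1]
    exact Finset.sum_congr rfl fun κ _ => hmon κ _
  have hdeg : ∀ κ ∈ P.support, κ 0 + κ 1 = e := by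
    intro κ hκ
    have h1 : κ.degree = e := by
      have h2 := hP (mem_support_iff.1 hκ)
      rw [Finsupp.degree_eq_weight_one]
      exact h2
    rw [← h1, Finsupp.degree_eq_sum, Fin.sum_univ_two]
  constructor
  · rw [hsum]
    refine Polynomial.natDegree_sum_le_of_forall_le _ _ fun κ hκ => ?_
    refine (Polynomial.natDegree_C_mul_X_pow_le _ _).trans ?_
    have := hdeg κ hκ
    omega
  · rw [hsum, Polynomial.finsetSum_coeff, eval_eq']
    refine Finset.sum_congr rfl fun κ hκ => ?_
    have h1 := hdeg κ hκ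
    rw [Polynomial.coeff_C_mul, Polynomial.coeff_X_pow, Fin.prod_univ_two]
    congr 1
    by_cases h : κ 1 = 0
    · rw [if_pos (by omega)]
      simp [h]
    · rw [if_neg (by omega)]
      simp [h]

theorem euler_dh (P : MvPolynomial (Fin 2) ℂ) (e : ℕ) (hP : P.IsHomogeneous e) :
    Polynomial.X * dh (pderiv 0 P) + dh (pderiv 1 P) = Polynomial.C (e : ℂ) * dh P := by
  have h1 := hP.sum_X_mul_pderiv
  rw [Fin.sum_univ_two] at h1
  have h2 := congrArg (fun Q => dh Q) h1
  unfold dh at *
  rw [map_add, map_mul, map_mul, aeval_X, aeval_X] at h2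
  simp only [Matrix.cons_val_zero, Matrix.cons_val_one, one_mul] at h2
  rw [h2, map_nsmul, nsmul_eq_mul]
  simp

end Pool.Agent.L5helper26.DM
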