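import Pool.Agent.L5helper26.DM.Agree

set_option autoImplicit false

/-! Étale orbits for an embedding, orbits which are given by étale orbits, and products. -/

namespace Pool.Agent.L5helper26.DM

open MvPolynomial Pool.Agent.H936R2 Pool.Agent.R847.QP Pool.Agent.R847.Gap Pool.Agent.R847.PC
open Pool.Agent.Y199.DM

variable {ι : Type} [Fintype ι] [DecidableEq ι]

/-- The orbit of `a` under `g` is integral and étale from some time on, for the embedding `τ`. -/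
def Etale {p : ℕ} [Fact p.Prime] (τ : ℂ →+* PadicAlgCl p) (g : ι → MvPolynomial ι ℂ)
    (a : ι → ℂ) : Prop :=
  (∀ i, Int (intR τ) (g i)) ∧ (∀ i, a i ∈ intR τ) ∧
    ∃ n0 : ℕ, ∀ n, n0 ≤ n → ‖τ ((jac g ((pt g)^[n] a)).det)‖ = 1

theorem etale_uniform {p : ℕ} [hp : Fact p.Prime] {τ : ℂ →+* PadicAlgCl p}
    {g : ι → MvPolynomial ι ℂ} {a : ι → ℂ} (h : Etale τ g a) :
    ∃ n1 k : ℕ, 0 < k ∧ ∀ S : Set (MvPolynomial ι ℂ), ∀ r,
      {t : ℕ | ∀ q ∈ S, eval ((pt g)^[n1 + r + k * t] a) q = 0}.Infinite →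
      ∀ t : ℕ, ∀ q ∈ S, eval ((pt g)^[n1 + r + k * t] a) q = 0 := by
  obtain ⟨hg, ha, n0, hdet⟩ := h
  choose gR hgR using hg
  set O := unitBall (PadicAlgCl p) with hO
  let FO : ι → MvPolynomial ι O := fun i => map (toBall τ) (gR i)
  let aR : ι → intR τ := fun i => ⟨a i, ha i⟩
  let b : ι → O := fun i => toBall τ (aR i)
  have e3 : (fun i => map (intR τ).subtype (gR i)) = g := _root_.funext hgR
  have hitR : ∀ n i, (((pt gR)^[n] aR i : intR τ) : ℂ) = (pt g)^[n] a i := by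
    intro n i
    have e1 := pt_map (intR τ).subtype gR aR n
    have e4 : (fun i => (intR τ).subtype (aR i)) = a := rfl
    rw [e3, e4] at e1
    exact (congrFun e1 i).symm
  have hit : ∀ n i, (((pt FO)^[n] b i : O) : PadicAlgCl p) = τ ((pt g)^[n] a i) := by
    intro n i
    have e1 := congrFun (pt_map (toBall τ) gR aR n) i
    change (pt FO)^[n] b i = _ at e1
    rw [e1, toBall_coe, hitR]
  have hunit : ∀ n, n0 ≤ n → IsUnit (jac FO ((pt FO)^[n] b)).det := by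
    intro n hn
    have e1 := pt_map (toBall τ) gR aR n
    change (pt FO)^[n] b = _ at e1
    have e2 : jac FO (fun i => toBall τ ((pt gR)^[n] aR i)) = _ :=
      jac_map (toBall τ) gR ((pt gR)^[n] aR)
    rw [e1, e2, ← RingHom.map_det, unitBall_isUnit_iff, toBall_coe]
    have e5 : ((jac gR ((pt gR)^[n] aR)).det : ℂ) = (jac g ((pt g)^[n] a)).det := by
      have e6 : ((jac gR ((pt gR)^[n] aR)).det : ℂ) =
        (intR τ).subtype (jac gR ((pt gR)^[n] aR)).det := rfl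
      rw [e6, RingHom.map_det, ← jac_map, e3]
      congr 2
      funext i
      exact hitR n i
    rw [e5]
    exact hdet n hn
  obtain ⟨n1, k, hk, hret⟩ := return_set p FO b n0 hunit
  refine ⟨n1, k, hk, fun S r hinf t => ?_⟩
  have hiff : ∀ n, (∀ q ∈ S, eval ((pt g)^[n] a) q = 0) ↔
      ∀ Q ∈ (fun q => map τ q) '' S,
        eval (fun i => (((pt FO)^[n] b i : O) : PadicAlgCl p)) Q = 0 := by
    intro n
    have hval : ∀ q : MvPolynomial ι ℂ,
        (eval (fun i => (((pt FO)^[n] b i : O) : PadicAlgCl p)) (map τ q) = 0 ↔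
        eval ((pt g)^[n] a) q = 0) := by
      intro q
      have e4 : (fun i => (((pt FO)^[n] b i : O) : PadicAlgCl p)) =
        fun i => τ ((pt g)^[n] a i) := _root_.funext (hit n)
      have e1 : eval (fun i => τ ((pt g)^[n] a i)) (map τ q) = τ (eval ((pt g)^[n] a) q) := by
        rw [eval_map]
        have h := eval₂_comp_left τ (RingHom.id _) ((pt g)^[n] a) q
        rw [RingHom.comp_id] at h
        exact h.symm
      rw [e4, e1, map_eq_zero]
    constructor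
    · rintro h Q ⟨q, hq, rfl⟩
      exact (hval q).2 (h q hq)
    · intro h q hq
      exact (hval q).1 (h _ ⟨q, hq, rfl⟩)
  have h3 := hret ((fun q => map τ q) '' S) r (hinf.mono fun t ht => (hiff _).1 ht) t
  exact (hiff _).2 h3

/-- The orbit of `a` under `Φ` is a polynomial function of the orbit of `z` under `G`, on the
residue classes of the times, from some time on. -/
def Param (Φ : ι → MvPolynomial ι ℂ) (a : ι → ℂ) (G : ι → MvPolynomial ι ℂ) (z : ι → ℂ) : Prop :=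
  ∃ (q n0 : ℕ) (P : ℕ → ι → MvPolynomial ι ℂ), 0 < q ∧
    ∀ n, n0 ≤ n → (pt Φ)^[n] a = pt (P (n % q)) ((pt G)^[n] z)

omit [Fintype ι] [DecidableEq ι] in
theorem Param.refl (Φ : ι → MvPolynomial ι ℂ) (a : ι → ℂ) : Param Φ a Φ a := by
  refine ⟨1, 0, fun _ => X, one_pos, fun n _ => ?_⟩
  funext i
  simp [pt]

omit [Fintype ι] [DecidableEq ι] in
/-- Orbits which agree. -/
theorem Param.of_eq {Φ : ι → MvPolynomial ι ℂ} {a : ι → ℂ} {G : ι → MvPolynomial ι ℂ}
    (h : ∀ n, (pt Φ)^[n] a = (pt G)^[n] a) : Param Φ a G a := by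
  refine ⟨1, 0, fun _ => X, one_pos, fun n _ => ?_⟩
  rw [h n]
  funext i
  simp [pt]

theorem param_dml {p : ℕ} [hp : Fact p.Prime] {τ : ℂ →+* PadicAlgCl p}
    {Φ G : ι → MvPolynomial ι ℂ} {a z : ι → ℂ} (hP : Param Φ a G z) (h : Etale τ G z)
    (S : Set (MvPolynomial ι ℂ)) : ∃ T : Finset (ℕ × ℕ),
      {n : ℕ | ∀ g ∈ S, eval ((pt Φ)^[n] a) g = 0} =
        {n : ℕ | ∃ q ∈ T, ∃ m : ℕ, n = q.1 * m + q.2} := by
  obtain ⟨q, n0, P, hq, hPn⟩ := hP
  obtain ⟨n1, k, hk, hu⟩ := etale_uniform h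
  have key : ∀ n, n0 ≤ n → ((∀ g ∈ S, eval ((pt Φ)^[n] a) g = 0) ↔
      ∀ g' ∈ (fun g => bind₁ (P (n % q)) g) '' S, eval ((pt G)^[n] z) g' = 0) := by
    intro n hn
    constructor
    · rintro hg _ ⟨g, hgS, rfl⟩
      rw [eval_bind]
      have := hg g hgS
      rw [hPn n hn] at this
      exact this
    · intro hg g hgS
      have := hg _ ⟨g, hgS, rfl⟩
      rw [eval_bind] at this
      rw [hPn n hn]
      exact this
  refine exists_progressions _ (n1 + n0) (k * q) (Nat.mul_pos hk hq) fun r hinf t => ?_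
  have hmod : ∀ t, (n1 + n0 + r + k * q * t) % q = (n1 + n0 + r) % q := by
    intro t
    have : n1 + n0 + r + k * q * t = n1 + n0 + r + q * (k * t) := by ring
    rw [this, Nat.add_mul_mod_self_left]
  have h1 : {t' : ℕ | ∀ g' ∈ (fun g => bind₁ (P ((n1 + n0 + r) % q)) g) '' S,
      eval ((pt G)^[n1 + (n0 + r) + k * t'] z) g' = 0}.Infinite := by
    have h2 : ((fun t => q * t) ''
        {t : ℕ | n1 + n0 + r + k * q * t ∈ {n : ℕ | ∀ g ∈ S, eval ((pt Φ)^[n] a) g = 0}}).Infinite :=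
      hinf.image (fun a _ b _ hab => Nat.eq_of_mul_eq_mul_left hq hab)
    refine h2.mono ?_
    rintro _ ⟨t, ht, rfl⟩
    have h3 := (key _ (by omega)).1 ht
    rw [hmod] at h3
    have e : n1 + (n0 + r) + k * (q * t) = n1 + n0 + r + k * q * t := by ring
    change ∀ g' ∈ _, eval ((pt G)^[n1 + (n0 + r) + k * (q * t)] z) g' = 0
    rw [e]
    exact h3
  have h4 := hu _ (n0 + r) h1 (q * t)
  change ∀ g ∈ S, eval ((pt Φ)^[n1 + n0 + r + k * q * t] a) g = 0
  rw [key _ (by omega), hmod]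
  have e : n1 + (n0 + r) + k * (q * t) = n1 + n0 + r + k * q * t := by ring
  rw [e] at h4
  exact h4

/-- The orbit of `a` under `Φ` is given by an orbit which is étale for almost all embeddings. -/
def Tame (Φ : ι → MvPolynomial ι ℂ) (a : ι → ℂ) : Prop :=
  ∃ (G : ι → MvPolynomial ι ℂ) (z : ι → ℂ), Param Φ a G z ∧
    ∃ s : Finset ℂ, ∀ (p : ℕ) [Fact p.Prime] (τ : ℂ →+* PadicAlgCl p), (∀ y ∈ s, ‖τ y‖ ≤ 1) →
      Etale τ G z

/-- The orbit of `a` under `Φ` is given by an orbit which is étale for sufficiently many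
embeddings. -/
def HalfTame (Φ : ι → MvPolynomial ι ℂ) (a : ι → ℂ) : Prop :=
  ∃ (G : ι → MvPolynomial ι ℂ) (z : ι → ℂ), Param Φ a G z ∧
    ∀ s : Finset ℂ, ∃ (p : ℕ) (_ : Fact p.Prime) (τ : ℂ →+* PadicAlgCl p),
      (∀ y ∈ s, ‖τ y‖ ≤ 1) ∧ Etale τ G z

theorem Tame.half {Φ : ι → MvPolynomial ι ℂ} {a : ι → ℂ} (h : Tame Φ a) : HalfTame Φ a := by
  classical
  obtain ⟨G, z, hP, s, hs⟩ := h
  refine ⟨G, z, hP, fun s' => ?_⟩
  obtain ⟨B, hB⟩ := Pool.Agent.TH838.PR.emb_finite (s ∪ s')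
  obtain ⟨p, hpB, hp⟩ := Nat.exists_infinite_primes (B + 1)
  have hpf : Fact p.Prime := ⟨hp⟩
  obtain ⟨τ, hτ⟩ := hB p (by omega)
  exact ⟨p, hpf, τ, fun y hy => hτ y (by simp [hy]), hs p τ fun y hy => hτ y (by simp [hy])⟩

theorem HalfTame.dml {Φ : ι → MvPolynomial ι ℂ} {a : ι → ℂ} (h : HalfTame Φ a)
    (S : Set (MvPolynomial ι ℂ)) : ∃ T : Finset (ℕ × ℕ),
      {n : ℕ | ∀ g ∈ S, eval ((pt Φ)^[n] a) g = 0} =
        {n : ℕ | ∃ q ∈ T, ∃ m : ℕ, n = q.1 * m + q.2} := by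
  obtain ⟨G, z, hP, h1⟩ := h
  obtain ⟨p, hp, τ, -, h2⟩ := h1 ∅
  exact param_dml hP h2 S

/-! ### Products -/

variable {κ : Type} [Fintype κ] [DecidableEq κ]

/-- The product of two polynomial self-maps. -/
noncomputable def blk (F : ι → MvPolynomial ι ℂ) (Ψ : κ → MvPolynomial κ ℂ) :
    ι ⊕ κ → MvPolynomial (ι ⊕ κ) ℂ :=
  Sum.elim (fun i => rename Sum.inl (F i)) (fun j => rename Sum.inr (Ψ j))

omit [Fintype ι] [DecidableEq ι] [Fintype κ] [DecidableEq κ] in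
theorem pt_blk1 (F : ι → MvPolynomial ι ℂ) (Ψ : κ → MvPolynomial κ ℂ) (x : ι → ℂ) (y : κ → ℂ) :
    pt (blk F Ψ) (Sum.elim x y) = Sum.elim (pt F x) (pt Ψ y) := by
  funext i
  rcases i with i | j
  · change eval (Sum.elim x y) (rename Sum.inl (F i)) = eval x (F i)
    rw [eval_rename]
    congr 2
  · change eval (Sum.elim x y) (rename Sum.inr (Ψ j)) = eval y (Ψ j)
    rw [eval_rename]
    congr 2

omit [Fintype ι] [DecidableEq ι] [Fintype κ] [DecidableEq κ] in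
theorem pt_blk (F : ι → MvPolynomial ι ℂ) (Ψ : κ → MvPolynomial κ ℂ) (x : ι → ℂ) (y : κ → ℂ)
    (n : ℕ) : (pt (blk F Ψ))^[n] (Sum.elim x y) = Sum.elim ((pt F)^[n] x) ((pt Ψ)^[n] y) := by
  induction n with
  | zero => rfl
  | succ n ih =>
    rw [Function.iterate_succ_apply', ih, pt_blk1, Function.iterate_succ_apply',
      Function.iterate_succ_apply']

theorem jac_blk (F : ι → MvPolynomial ι ℂ) (Ψ : κ → MvPolynomial κ ℂ) (x : ι → ℂ) (y : κ → ℂ) :
    (jac (blk F Ψ) (Sum.elim x y)).det = (jac F x).det * (jac Ψ y).det := by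
  have h : jac (blk F Ψ) (Sum.elim x y) = Matrix.fromBlocks (jac F x) 0 0 (jac Ψ y) := by
    ext i j
    rcases i with i | i <;> rcases j with j | j
    · change eval (Sum.elim x y) (pderiv (Sum.inl j) (rename Sum.inl (F i))) = eval x (pderiv j (F i))
      rw [pderiv_rename Sum.inl_injective, eval_rename]
      congr 2
    · change eval (Sum.elim x y) (pderiv (Sum.inr j) (rename Sum.inl (F i))) = 0
      rw [pderiv_eq_zero_of_notMem_vars, map_zero]
      intro hmem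
      obtain ⟨l, -, hl⟩ := Finset.mem_image.1 (vars_rename _ _ hmem)
      cases hl
    · change eval (Sum.elim x y) (pderiv (Sum.inl j) (rename Sum.inr (Ψ i))) = 0
      rw [pderiv_eq_zero_of_notMem_vars, map_zero]
      intro hmem
      obtain ⟨l, -, hl⟩ := Finset.mem_image.1 (vars_rename _ _ hmem)
      cases hl
    · change eval (Sum.elim x y) (pderiv (Sum.inr j) (rename Sum.inr (Ψ i))) = eval y (pderiv j (Ψ i))
      rw [pderiv_rename Sum.inr_injective, eval_rename]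
      congr 2
  rw [h, Matrix.det_fromBlocks_zero₂₁]

theorem Etale.blk {p : ℕ} [Fact p.Prime] {τ : ℂ →+* PadicAlgCl p} {F : ι → MvPolynomial ι ℂ}
    {Ψ : κ → MvPolynomial κ ℂ} {x : ι → ℂ} {y : κ → ℂ} (h1 : Etale τ F x) (h2 : Etale τ Ψ y) :
    Etale τ (blk F Ψ) (Sum.elim x y) := by
  obtain ⟨a1, b1, n1, c1⟩ := h1
  obtain ⟨a2, b2, n2, c2⟩ := h2
  refine ⟨fun i => ?_, fun i => ?_, max n1 n2, fun n hn => ?_⟩
  · rcases i with i | i
    · obtain ⟨Q, hQ⟩ := a1 i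
      exact ⟨rename Sum.inl Q, by rw [map_rename, hQ]; rfl⟩
    · obtain ⟨Q, hQ⟩ := a2 i
      exact ⟨rename Sum.inr Q, by rw [map_rename, hQ]; rfl⟩
  · rcases i with i | i
    · exact b1 i
    · exact b2 i
  · rw [pt_blk, jac_blk, map_mul, norm_mul, c1 n (le_trans (le_max_left _ _) hn),
      c2 n (le_trans (le_max_right _ _) hn), one_mul]

omit [Fintype ι] [DecidableEq ι] [Fintype κ] [DecidableEq κ] in
theorem Param.blk {Φ G : ι → MvPolynomial ι ℂ} {a z : ι → ℂ} {Φ' G' : κ → MvPolynomial κ ℂ}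
    {a' z' : κ → ℂ} (h1 : Param Φ a G z) (h2 : Param Φ' a' G' z') :
    Param (blk Φ Φ') (Sum.elim a a') (blk G G') (Sum.elim z z') := by
  obtain ⟨q1, n1, P1, hq1, hP1⟩ := h1
  obtain ⟨q2, n2, P2, hq2, hP2⟩ := h2
  refine ⟨q1 * q2, max n1 n2, fun r => Pool.Agent.L5helper26.DM.blk (P1 (r % q1)) (P2 (r % q2)),
    Nat.mul_pos hq1 hq2, fun n hn => ?_⟩
  rw [pt_blk, pt_blk, pt_blk1, hP1 n (le_trans (le_max_left _ _) hn),
    hP2 n (le_trans (le_max_right _ _) hn), Nat.mod_mul_right_mod,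
    Nat.mod_mul_left_mod]

theorem Tame.blk {Φ : ι → MvPolynomial ι ℂ} {a : ι → ℂ} {Φ' : κ → MvPolynomial κ ℂ}
    {a' : κ → ℂ} (h1 : Tame Φ a) (h2 : Tame Φ' a') : Tame (blk Φ Φ') (Sum.elim a a') := by
  classical
  obtain ⟨G, z, hP, s, hs⟩ := h1
  obtain ⟨G', z', hP', s', hs'⟩ := h2
  exact ⟨_, _, hP.blk hP', s ∪ s', fun p hp τ hτ =>
    (hs p τ fun y hy => hτ y (by simp [hy])).blk (hs' p τ fun y hy => hτ y (by simp [hy]))⟩

theorem HalfTame.blk {Φ : ι → MvPolynomial ι ℂ} {a : ι → ℂ} {Φ' : κ → MvPolynomial κ ℂ}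
    {a' : κ → ℂ} (h1 : HalfTame Φ a) (h2 : Tame Φ' a') :
    HalfTame (Pool.Agent.L5helper26.DM.blk Φ Φ') (Sum.elim a a') := by
  classical
  obtain ⟨G, z, hP, hs⟩ := h1
  obtain ⟨G', z', hP', s', hs'⟩ := h2
  refine ⟨_, _, hP.blk hP', fun s => ?_⟩
  obtain ⟨p, hp, τ, hτ, h3⟩ := hs (s ∪ s')
  exact ⟨p, hp, τ, fun y hy => hτ y (by simp [hy]),
    h3.blk (hs' p τ fun y hy => hτ y (by simp [hy]))⟩

end Pool.Agent.L5helper26.DM
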