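import Pool.Agent.L5helper26.DM.Scf

set_option autoImplicit false

/-! Families of endomorphisms near to a strictly critically finite member. -/

namespace Pool.Agent.L5helper26.DM

open MvPolynomial Pool.Agent.H936R2 Pool.Agent.R847.QP Pool.Agent.R847.Gap Pool.Agent.R847.PC
open Pool.Agent.Y199.DM

/-- The subring of the numbers which are integral for an embedding. -/
noncomputable def intR {p : ℕ} [Fact p.Prime] (τ : ℂ →+* PadicAlgCl p) : Subring ℂ :=
  (unitBall (PadicAlgCl p)).comap (τ : ℂ →+* PadicAlgCl p)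

/-- The map of this subring to the unit ball. -/
noncomputable def toBall {p : ℕ} [Fact p.Prime] (τ : ℂ →+* PadicAlgCl p) :
    intR τ →+* unitBall (PadicAlgCl p) where
  toFun := fun x => ⟨τ x.1, x.2⟩
  map_one' := by
    apply Subtype.ext
    exact map_one τ
  map_mul' := fun x y => by
    apply Subtype.ext
    exact map_mul τ x.1 y.1
  map_zero' := by
    apply Subtype.ext
    exact map_zero τ
  map_add' := fun x y => by
    apply Subtype.ext
    exact map_add τ x.1 y.1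

theorem mem_intR {p : ℕ} [Fact p.Prime] (τ : ℂ →+* PadicAlgCl p) (x : ℂ) :
    x ∈ intR τ ↔ ‖τ x‖ ≤ 1 := Iff.rfl

theorem toBall_coe {p : ℕ} [Fact p.Prime] (τ : ℂ →+* PadicAlgCl p) (x : intR τ) :
    ((toBall τ x : unitBall (PadicAlgCl p)) : PadicAlgCl p) = τ x.1 := rfl

/-- The full Dynamical Mordell-Lang property (the conclusion of `criterion`). -/
def Full {N : ℕ} (f : Fin (N + 1) → MvPolynomial (Fin (N + 1)) ℂ) : Prop :=
  (∀ x : Fin (N + 1) → ℂ, (∀ i, eval x (f i) = 0) → x = 0) ∧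
    ∀ S : Set (MvPolynomial (Fin (N + 1)) ℂ), (∀ g ∈ S, ∃ e : ℕ, g.IsHomogeneous e) →
      ∀ a : Fin (N + 1) → ℂ, a ≠ 0 → ∃ T : Finset (ℕ × ℕ),
        {n : ℕ | ∀ g ∈ S,
            eval ((fun x : Fin (N + 1) → ℂ => fun i => eval x (f i))^[n] a) g = 0}
          = {n : ℕ | ∃ q ∈ T, ∃ m : ℕ, n = q.1 * m + q.2}

/-- If `f` is congruent to a map `g` which has no cycles with critical points modulo `p` then `f`
has the full Dynamical Mordell-Lang property. -/
theorem full_of_near {p : ℕ} [hp : Fact p.Prime] (τ : ℂ →+* PadicAlgCl p) {N d : ℕ}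
    (f g : Fin (N + 1) → MvPolynomial (Fin (N + 1)) ℂ) (hf : ∀ i, (f i).IsHomogeneous d)
    (hfi : ∀ i κ, ‖τ ((f i).coeff κ)‖ ≤ 1) (hgi : ∀ i κ, ‖τ ((g i).coeff κ)‖ ≤ 1)
    (hfg : ∀ i κ, ‖τ ((f i).coeff κ) - τ ((g i).coeff κ)‖ < 1)
    (h1 : ∀ fR : Fin (N + 1) → MvPolynomial (Fin (N + 1)) (intR τ),
      (∀ i, map (intR τ).subtype (fR i) = g i) →
      (∀ z : Fin (N + 1) → ResF (PadicAlgCl p),
        (∀ i, eval z (map ((res (PadicAlgCl p)).comp (toBall τ)) (fR i)) = 0) → z = 0) ∧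
      ∀ z : Fin (N + 1) → ResF (PadicAlgCl p), z ≠ 0 → ∀ q : ℕ, 0 < q →
        (pt fun i => map ((res (PadicAlgCl p)).comp (toBall τ)) (fR i))^[q] z = z →
          (jac (fun i => map ((res (PadicAlgCl p)).comp (toBall τ)) (fR i)) z).det ≠ 0) :
    Full f := by
  classical
  choose fR hfR using fun i => int_of_coeff (intR τ) (f i) (fun κ => (mem_intR τ _).2 (hfi i κ))
  choose gR hgR using fun i => int_of_coeff (intR τ) (g i) (fun κ => (mem_intR τ _).2 (hgi i κ))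
  obtain ⟨h2, h3⟩ := h1 gR hgR
  have hred : ∀ i, map ((res (PadicAlgCl p)).comp (toBall τ)) (fR i) =
      map ((res (PadicAlgCl p)).comp (toBall τ)) (gR i) := by
    intro i
    ext κ
    rw [coeff_map, coeff_map, ← sub_eq_zero, ← map_sub, RingHom.comp_apply, res_eq_zero_iff,
      toBall_coe]
    have e1 : (((fR i).coeff κ : intR τ) : ℂ) = (f i).coeff κ := by
      rw [← hfR i, coeff_map]
      rfl
    have e2 : (((gR i).coeff κ : intR τ) : ℂ) = (g i).coeff κ := by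
      rw [← hgR i, coeff_map]
      rfl
    have e3 : (((fR i).coeff κ - (gR i).coeff κ : intR τ) : ℂ) =
        (((fR i).coeff κ : intR τ) : ℂ) - (((gR i).coeff κ : intR τ) : ℂ) := rfl
    rw [e3, e1, e2, map_sub]
    exact hfg i κ
  have hmm : ∀ i, map (res (PadicAlgCl p)) (map (toBall τ) (fR i)) =
      map ((res (PadicAlgCl p)).comp (toBall τ)) (gR i) := by
    intro i
    rw [map_map]
    exact hred i
  refine criterion p N d f hf τ (fun i => map (toBall τ) (fR i)) (fun i => ?_) (fun x hx => ?_)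
    (fun x hx q hq hper => ?_)
  · rw [map_map, ← hfR i, map_map]
    rfl
  · refine h2 x fun i => ?_
    rw [← hmm i]
    exact hx i
  · have e1 : (fun i => map (res (PadicAlgCl p)) (map (toBall τ) (fR i))) =
        fun i => map ((res (PadicAlgCl p)).comp (toBall τ)) (gR i) := _root_.funext hmm
    rw [e1] at hper ⊢
    exact h3 x hx q hq hper

/-- The strictly critically finite endomorphisms (the condition on the affine cone). -/
structure Chain {N : ℕ} (f : Fin (N + 1) → MvPolynomial (Fin (N + 1)) ℂ) (k : ℕ)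
    (D : ℕ → Set (MvPolynomial (Fin (N + 1)) ℂ)) : Prop where
  inv : ∀ i ≤ k, ∀ z : Fin (N + 1) → ℂ, z ≠ 0 → (∀ g ∈ D i, eval z g = 0) →
    ∀ g ∈ D i, eval (pt f z) g = 0
  crit : ∀ i < k, ∃ m : ℕ, ∀ z : Fin (N + 1) → ℂ, z ≠ 0 → (∀ g ∈ D i, eval z g = 0) →
    (jac f z).det = 0 → ∀ g ∈ D (i + 1), eval ((pt f)^[m] z) g = 0
  last : ∀ z : Fin (N + 1) → ℂ, z ≠ 0 → ∃ g ∈ D k, eval z g ≠ 0

/-- The chain property modulo almost all primes. -/
theorem chain_cert {N : ℕ} (f : Fin (N + 1) → MvPolynomial (Fin (N + 1)) ℂ)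
    (hf1 : pt f 0 = 0) (k : ℕ)
    (D : ℕ → Set (MvPolynomial (Fin (N + 1)) ℂ)) (h : Chain f k D) :
    ∃ (s : Finset ℂ) (E : Finset (MvPolynomial (Fin (N + 1)) ℂ)),
      (∀ g ∈ E, ∃ g' ∈ D 0, ∃ j, g = X j * g') ∧
      ∀ R : Subring ℂ, (s : Set ℂ) ⊆ R →
      ∀ fR : Fin (N + 1) → MvPolynomial (Fin (N + 1)) R, (∀ i, map R.subtype (fR i) = f i) →
      ∀ (kk : Type) [Field kk] (ρ : R →+* kk) (z : Fin (N + 1) → kk), z ≠ 0 →
        (∀ g ∈ E, ev ρ z g = 0) →
        ∀ q : ℕ, 0 < q → (pt fun i => map ρ (fR i))^[q] z = z →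
          (jac (fun i => map ρ (fR i)) z).det ≠ 0 := by
  classical
  let D' : ℕ → Set (MvPolynomial (Fin (N + 1)) ℂ) := fun i =>
    {h | ∃ g ∈ D i, ∃ j, h = X j * g}
  have hz : ∀ i (z : Fin (N + 1) → ℂ), (∀ h ∈ D' i, eval z h = 0) ↔
      (z = 0 ∨ ∀ g ∈ D i, eval z g = 0) := by
    intro i z
    constructor
    · intro h
      by_cases hz : z = 0
      · exact Or.inl hz
      · right
        obtain ⟨j, hj⟩ := Function.ne_iff.1 hz
        intro g hg
        have h1 := h _ ⟨g, hg, j, rfl⟩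
        rw [map_mul, eval_X] at h1
        exact (mul_eq_zero.1 h1).resolve_left hj
    · rintro (rfl | h) _ ⟨g, hg, j, rfl⟩
      · rw [map_mul, eval_X]
        simp
      · rw [map_mul, h g hg, mul_zero]
  have hit0 : ∀ n, (pt f)^[n] 0 = 0 := by
    intro n
    induction n with
    | zero => rfl
    | succ n ih => rw [Function.iterate_succ_apply', ih, hf1]
  obtain ⟨s, E, hE, hs⟩ := scf_cert f k D' (by
    intro i hi z hzi
    rw [hz] at hzi ⊢
    by_cases h' : z = 0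
    · subst h'
      exact Or.inl hf1
    · exact Or.inr (h.inv i hi z h' (hzi.resolve_left h'))) (by
    intro i hi
    obtain ⟨m, hm⟩ := h.crit i hi
    refine ⟨m, fun z hzi hj => ?_⟩
    rw [hz] at hzi ⊢
    by_cases h' : z = 0
    · subst h'
      exact Or.inl (hit0 m)
    · exact Or.inr (hm z h' (hzi.resolve_left h') hj)) (by
    intro z hzi
    rw [hz] at hzi
    by_contra h'
    obtain ⟨g, hg, hne⟩ := h.last z h'
    exact hne (hzi.resolve_left h' g hg))
  exact ⟨s, E, fun g hg => hE hg, hs⟩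

/-- The members of a family near to a strictly critically finite member. -/
theorem near_scf {N d : ℕ} (hd : 1 ≤ d) (F : ℂ → Fin (N + 1) → MvPolynomial (Fin (N + 1)) ℂ)
    (cF : Fin (N + 1) → (Fin (N + 1) →₀ ℕ) → Polynomial ℂ)
    (hcF : ∀ t i κ, (F t i).coeff κ = (cF i κ).eval t)
    (hfin : {q : Fin (N + 1) × (Fin (N + 1) →₀ ℕ) | cF q.1 q.2 ≠ 0}.Finite)
    (hF : ∀ t i, (F t i).IsHomogeneous d) (a : ℂ)
    (h0 : ∀ x : Fin (N + 1) → ℂ, (∀ i, eval x (F a i) = 0) → x = 0) (k : ℕ)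
    (D : ℕ → Set (MvPolynomial (Fin (N + 1)) ℂ)) (hch : Chain (F a) k D)
    (hD0 : ∀ z : Fin (N + 1) → ℂ, z ≠ 0 → ∀ g ∈ D 0, eval z g = 0) :
    ∃ s : Finset ℂ, ∀ (p : ℕ) [Fact p.Prime] (τ : ℂ →+* PadicAlgCl p), (∀ y ∈ s, ‖τ y‖ ≤ 1) →
      ∀ t : ℂ, ‖τ t‖ ≤ 1 → ‖τ a - τ t‖ < 1 → Full (F t) := by
  classical
  have hf1 : pt (F a) 0 = 0 := by
    funext i
    change eval 0 (F a i) = 0
    have h1 := Pool.Agent.R847.QP.hom_scale (F a i) d (hF a i) 0 0
    rw [zero_smul, zero_pow (by omega), zero_mul] at h1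
    exact h1
  obtain ⟨s, E, hE, hs⟩ := chain_cert (F a) hf1 k D hch
  obtain ⟨s', hs'⟩ := endo_cert (F a) h0
  let s1 : Finset ℂ := hfin.toFinset.biUnion fun q =>
    (cF q.1 q.2).support.image fun k => (cF q.1 q.2).coeff k
  have hs1 : ∀ i κ k, (cF i κ).coeff k ≠ 0 → (cF i κ).coeff k ∈ s1 := by
    intro i κ k h
    have h1 : cF i κ ≠ 0 := fun h0 => h (by rw [h0, Polynomial.coeff_zero])
    simp only [s1, Finset.mem_biUnion, Finset.mem_image]
    exact ⟨(i, κ), (Set.Finite.mem_toFinset hfin).2 h1, k, Polynomial.mem_support_iff.2 h, rfl⟩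
  refine ⟨s ∪ s' ∪ s1, fun p hp τ hτ t htn htα => ?_⟩
  have hτ0 : ∀ y ∈ s, ‖τ y‖ ≤ 1 := fun y hy => hτ y (by simp [hy])
  have hτ' : ∀ y ∈ s', ‖τ y‖ ≤ 1 := fun y hy => hτ y (by simp [hy])
  have hτ1 : ∀ i κ k, ‖τ ((cF i κ).coeff k)‖ ≤ 1 := by
    intro i κ k
    by_cases h : (cF i κ).coeff k = 0
    · rw [h, map_zero, norm_zero]
      exact zero_le_one
    · exact hτ _ (by simp [hs1 i κ k h])
  have htα' : ‖τ t - τ a‖ < 1 := by rwa [norm_sub_rev]
  have hαn : ‖τ a‖ ≤ 1 := by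
    have h1 : τ a = (τ a - τ t) + τ t := by ring
    rw [h1]
    exact (IsUltrametricDist.norm_add_le_max _ _).trans (max_le htα.le htn)
  have hev := fun (q : Polynomial ℂ) (hq : ∀ k, ‖τ (q.coeff k)‖ ≤ 1) =>
    eval_near τ q hq t a htn hαn htα'
  have hevα := fun (q : Polynomial ℂ) (hq : ∀ k, ‖τ (q.coeff k)‖ ≤ 1) =>
    (eval_near τ q hq a a hαn hαn (by rw [sub_self, norm_zero]; exact one_pos)).1
  refine full_of_near (d := d) τ (F t) (F a) (hF t) (fun i κ => ?_) (fun i κ => ?_)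
    (fun i κ => ?_) (fun fR hfR => ⟨fun z hz => ?_, fun z hz q hq hper => ?_⟩)
  · rw [hcF]
    exact (hev _ (hτ1 i κ)).1
  · rw [hcF]
    exact hevα _ (hτ1 i κ)
  · rw [hcF, hcF]
    exact (hev _ (hτ1 i κ)).2
  · exact hs' (intR τ) (fun y hy => hτ' y hy) fR hfR _ _ z hz
  · refine hs (intR τ) (fun y hy => hτ0 y hy) fR hfR _ _ z hz (fun g hg => ?_) q hq hper
    obtain ⟨g', hg', j, rfl⟩ := hE g hg
    have h2 : g' = 0 ∨ (X j * g' : MvPolynomial (Fin (N + 1)) ℂ) = 0 := by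
      right
      apply MvPolynomial.funext
      intro x
      rw [map_mul, eval_X, map_zero]
      by_cases hx : x = 0
      · rw [hx]
        simp
      · rw [hD0 x hx g' hg', mul_zero]
    have h3 : (X j * g' : MvPolynomial (Fin (N + 1)) ℂ) = 0 := by
      rcases h2 with h | h
      · rw [h, mul_zero]
      · exact h
    rw [h3]
    have h4 : (0 : MvPolynomial (Fin (N + 1)) ℂ) = map (intR τ).subtype 0 := (map_zero _).symm
    rw [h4, ev_map, eval₂_zero]

end Pool.Agent.L5helper26.DM
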