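import Pool.Agent.L5helper26.DM.TameEx
import Pool.Agent.L5helper26.DM.Tr
import Pool.Agent.L5helper26.DM.Base

set_option autoImplicit false

/-! Rational functions of one variable: the noncritical fixed point. -/

namespace Pool.Agent.L5helper26.DM

open MvPolynomial Pool.Agent.H936R2 Pool.Agent.R847.PC

theorem eq_of_roots (R Q : Polynomial ℂ) (hR : 1 ≤ R.natDegree)
    (h : ∀ z, R.eval z = 0 → R.derivative.eval z = Q.eval z ∧ Q.eval z ≠ 0)
    (hdeg : (R.derivative - Q).natDegree < R.natDegree) : R.derivative = Q := by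
  classical
  have hR0 : R ≠ 0 := by
    rintro rfl
    simp at hR
  have hnd : R.roots.Nodup := by
    rw [Multiset.nodup_iff_count_le_one]
    intro z
    rw [Polynomial.count_roots]
    by_contra hlt
    push Not at hlt
    obtain ⟨h1, h2⟩ := (Polynomial.one_lt_rootMultiplicity_iff_isRoot hR0).1 hlt
    obtain ⟨h3, h4⟩ := h z h1
    rw [Polynomial.IsRoot.def] at h2
    rw [h2] at h3
    exact h4 h3.symm
  have hcard : R.roots.toFinset.card = R.natDegree := by
    rw [Multiset.toFinset_card_of_nodup hnd]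
    exact (IsAlgClosed.splits R).natDegree_eq_card_roots.symm
  by_contra hne
  have hne' : R.derivative - Q ≠ 0 := sub_ne_zero.2 hne
  have hsub : R.roots.toFinset.val ⊆ (R.derivative - Q).roots := by
    intro z hz
    rw [Finset.mem_val, Multiset.mem_toFinset, Polynomial.mem_roots'] at hz
    rw [Polynomial.mem_roots']
    refine ⟨hne', ?_⟩
    rw [Polynomial.IsRoot.def, Polynomial.eval_sub, (h z hz.2).1, sub_self]
  have := Polynomial.card_le_degree_of_subset_roots hsub
  omega

/-- The rational function in an affine coordinate. -/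
theorem pt_affine (F : Fin 2 → MvPolynomial (Fin 2) ℂ) (z : ℂ) :
    pt F ![z, 1] = ![(dh (F 0)).eval z, (dh (F 1)).eval z] := by
  funext i
  fin_cases i
  · exact (eval_dh _ _).symm
  · exact (eval_dh _ _).symm

theorem jac_affine {d : ℕ} (F : Fin 2 → MvPolynomial (Fin 2) ℂ) (hF : ∀ i, (F i).IsHomogeneous d)
    (z : ℂ) : (jac F ![z, 1]).det = d * ((dh (F 0)).derivative.eval z * (dh (F 1)).eval z -
      (dh (F 0)).eval z * (dh (F 1)).derivative.eval z) := by
  rw [Matrix.det_fin_two]
  have h0 : ∀ i, jac F ![z, 1] i 0 = (dh (F i)).derivative.eval z := by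
    intro i
    rw [derivative_dh, eval_dh]
    rfl
  have h1 : ∀ i, jac F ![z, 1] i 1 = d * (dh (F i)).eval z - z * (dh (F i)).derivative.eval z := by
    intro i
    have h2 := congrArg (Polynomial.eval z) (euler_dh (F i) d (hF i))
    rw [Polynomial.eval_add, Polynomial.eval_mul, Polynomial.eval_mul, Polynomial.eval_X,
      Polynomial.eval_C, ← derivative_dh, eval_dh (pderiv 1 (F i))] at h2
    change eval ![z, 1] (pderiv 1 (F i)) = _
    linear_combination h2
  rw [h0, h0, h1, h1]
  ring

theorem jac_infinity {d : ℕ} (hd : 1 ≤ d) (F : Fin 2 → MvPolynomial (Fin 2) ℂ)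
    (hF : ∀ i, (F i).IsHomogeneous d) :
    (jac F ![1, 0]).det = d * ((dh (F 0)).coeff d * (dh (F 1)).coeff (d - 1) -
      (dh (F 0)).coeff (d - 1) * (dh (F 1)).coeff d) := by
  rw [Matrix.det_fin_two]
  have hp : ∀ (i j : Fin 2), (pderiv j (F i)).IsHomogeneous (d - 1) := fun i j => (hF i).pderiv
  obtain ⟨e, rfl⟩ : ∃ e, d = e + 1 := ⟨d - 1, by omega⟩
  have h0 : ∀ i, jac F ![1, 0] i 0 = ((e + 1 : ℕ) : ℂ) * (dh (F i)).coeff (e + 1) := by
    intro i
    have h1 := (dh_coeff _ _ (hp i 0)).2
    rw [← derivative_dh, Nat.add_sub_cancel, Polynomial.coeff_derivative] at h1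
    change eval ![1, 0] (pderiv 0 (F i)) = _
    rw [← h1]
    push_cast
    ring
  have h1 : ∀ i, jac F ![1, 0] i 1 = (dh (F i)).coeff e := by
    intro i
    have h1 := (dh_coeff _ _ (hp i 1)).2
    have h2 := congrArg (fun q => Polynomial.coeff q e) (euler_dh (F i) (e + 1) (hF i))
    simp only [Polynomial.coeff_add, Polynomial.coeff_C_mul] at h2
    rw [Nat.add_sub_cancel] at h1
    change eval ![1, 0] (pderiv 1 (F i)) = _
    rw [← h1]
    have h3 : (Polynomial.X * dh (pderiv 0 (F i))).coeff e = e * (dh (F i)).coeff e := by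
      rw [← derivative_dh]
      rcases e with _ | e
      · simp
      · rw [Polynomial.coeff_X_mul, Polynomial.coeff_derivative]
        push_cast
        ring
    rw [h3] at h2
    push_cast at h2
    linear_combination h2
  rw [h0, h0, h1, h1, Nat.add_sub_cancel]
  ring

/-- A noncritical fixed point, in an affine coordinate or at infinity. -/
theorem exists_fixed {d : ℕ} (hd : 2 ≤ d) (F : Fin 2 → MvPolynomial (Fin 2) ℂ)
    (hF : ∀ i, (F i).IsHomogeneous d)
    (h0 : ∀ x : Fin 2 → ℂ, (∀ i, eval x (F i) = 0) → x = 0) :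
    (∃ ζ : ℂ, (dh (F 0)).eval ζ = ζ * (dh (F 1)).eval ζ ∧ (dh (F 1)).eval ζ ≠ 0 ∧
      (dh (F 0)).derivative.eval ζ - ζ * (dh (F 1)).derivative.eval ζ ≠ 0) ∨
    ((dh (F 1)).coeff d = 0 ∧ (dh (F 0)).coeff d ≠ 0 ∧ (dh (F 1)).coeff (d - 1) ≠ 0) := by
  set P := dh (F 0) with hP
  set Q := dh (F 1) with hQ
  obtain ⟨hPd, hPt⟩ := dh_coeff (F 0) d (hF 0)
  obtain ⟨hQd, hQt⟩ := dh_coeff (F 1) d (hF 1)
  rw [← hP] at hPd hPt
  rw [← hQ] at hQd hQt
  have hnz : ∀ z, ¬ (P.eval z = 0 ∧ Q.eval z = 0) := by
    rintro z ⟨h1, h2⟩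
    have h3 := h0 ![z, 1] (fun i => by
      have h4 := congrFun (pt_affine F z) i
      change eval ![z, 1] (F i) = _ at h4
      rw [h4]
      fin_cases i
      · exact h1
      · exact h2)
    have h4 := congrFun h3 1
    simp at h4
  have hnzi : ¬ (P.coeff d = 0 ∧ Q.coeff d = 0) := by
    rintro ⟨h1, h2⟩
    have h3 := h0 ![1, 0] (fun i => by
      fin_cases i
      · exact hPt.symm.trans h1
      · exact hQt.symm.trans h2)
    have h4 := congrFun h3 0
    simp at h4
  by_contra hcon
  push Not at hcon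
  obtain ⟨hc1, hc2⟩ := hcon
  let R : Polynomial ℂ := Polynomial.X * Q - P
  have hRz : ∀ z, R.eval z = 0 → R.derivative.eval z = Q.eval z ∧ Q.eval z ≠ 0 := by
    intro z hz
    have h1 : P.eval z = z * Q.eval z := by
      simp only [R, Polynomial.eval_sub, Polynomial.eval_mul, Polynomial.eval_X] at hz
      linear_combination -hz
    have h2 : Q.eval z ≠ 0 := by
      intro h2
      exact hnz z ⟨by rw [h1, h2, mul_zero], h2⟩
    have h3 := hc1 z h1 h2
    refine ⟨?_, h2⟩
    simp only [R, Polynomial.derivative_sub, Polynomial.derivative_mul, Polynomial.derivative_X,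
      Polynomial.eval_sub, Polynomial.eval_add, Polynomial.eval_mul, Polynomial.eval_X,
      one_mul]
    linear_combination -h3
  obtain ⟨e, rfl⟩ : ∃ e, d = e + 1 := ⟨d - 1, by omega⟩
  have hRdeg : R.natDegree ≤ e + 2 := by
    refine (Polynomial.natDegree_sub_le _ _).trans (max_le ?_ (by omega))
    refine (Polynomial.natDegree_mul_le).trans ?_
    rw [Polynomial.natDegree_X]
    omega
  have hRc1 : R.coeff (e + 2) = Q.coeff (e + 1) := by
    simp only [R, Polynomial.coeff_sub, Polynomial.coeff_X_mul]
    rw [Polynomial.coeff_eq_zero_of_natDegree_lt (show P.natDegree < e + 2 by omega), sub_zero]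
  have hRc0 : R.coeff (e + 1) = Q.coeff e - P.coeff (e + 1) := by
    simp only [R, Polynomial.coeff_sub, Polynomial.coeff_X_mul]
  by_cases hb : Q.coeff (e + 1) = 0
  · have ha : P.coeff (e + 1) ≠ 0 := fun h => hnzi ⟨h, hb⟩
    have hb1 : Q.coeff e = 0 := hc2 hb ha
    have hRn : R.natDegree = e + 1 := by
      refine le_antisymm ?_ (Polynomial.le_natDegree_of_ne_zero (by
        rw [hRc0, hb1, zero_sub]
        exact neg_ne_zero.2 ha))
      by_contra hlt
      push Not at hlt
      have h1 : R.natDegree = e + 2 := by omega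
      have h2 : R.coeff R.natDegree = 0 := by rw [h1, hRc1, hb]
      have h3 : R ≠ 0 := by
        rintro h3
        rw [h3] at h1
        simp at h1
      exact h3 (Polynomial.leadingCoeff_eq_zero.1 h2)
    have hQe : Q.natDegree ≤ e := by
      by_contra hlt
      push Not at hlt
      have h1 : Q.natDegree = e + 1 := by omega
      have h2 : Q.coeff Q.natDegree = 0 := by rw [h1, hb]
      have h3 : Q ≠ 0 := by
        rintro h3
        rw [h3] at h1
        simp at h1
      exact h3 (Polynomial.leadingCoeff_eq_zero.1 h2)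
    have hd1 : R.derivative.natDegree ≤ e := by
      have := Polynomial.natDegree_derivative_le R
      omega
    have h1 := eq_of_roots R Q (by omega) hRz (by
      have := Polynomial.natDegree_sub_le R.derivative Q
      have := max_le hd1 hQe
      omega)
    have h2 := congrArg (fun q => Polynomial.coeff q e) h1
    simp only [Polynomial.coeff_derivative, hRc0, hb1, zero_sub] at h2
    rcases mul_eq_zero.1 h2 with h3 | h3
    · exact ha (neg_eq_zero.1 h3)
    · have h4 : ((e + 1 : ℕ) : ℂ) = 0 := by exact_mod_cast h3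
      exact absurd h4 (Nat.cast_ne_zero.2 (by omega))
  · have hRn : R.natDegree = e + 2 := by
      refine le_antisymm hRdeg (Polynomial.le_natDegree_of_ne_zero (by
        rw [hRc1]
        exact hb))
    have hd1 : R.derivative.natDegree ≤ e + 1 := by
      have := Polynomial.natDegree_derivative_le R
      omega
    have h1 := eq_of_roots R Q (by omega) hRz (by
      have := Polynomial.natDegree_sub_le R.derivative Q
      have := max_le hd1 hQd
      omega)
    have h2 := congrArg (fun q => Polynomial.coeff q (e + 1)) h1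
    simp only [Polynomial.coeff_derivative, hRc1] at h2
    have h3 : Q.coeff (e + 1) * ((e + 1 : ℕ) : ℂ) = 0 := by
      push_cast at h2 ⊢
      linear_combination h2
    rcases mul_eq_zero.1 h3 with h4 | h4
    · exact hb h4
    · exact absurd h4 (Nat.cast_ne_zero.2 (by omega))

end Pool.Agent.L5helper26.DM
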