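import Pool.Agent.L5helper26.DM.NearB
import Pool.Agent.Y199.DM.NfT

set_option autoImplicit false

/-! All orbits of a rational function of one variable over the algebraic numbers are given by
étale orbits, for sufficiently many embeddings. -/

namespace Pool.Agent.L5helper26.DM

open MvPolynomial Pool.Agent.H936R2 Pool.Agent.R847.PC Pool.Agent.Y199.DM

theorem par_ratio {a b : Fin 2 → ℂ} (ha : a 1 ≠ 0) (hb : b 1 ≠ 0) (h : a 0 / a 1 = b 0 / b 1) :
    Par a b := by
  refine ⟨a 1 / b 1, div_ne_zero ha hb, ?_⟩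
  rw [div_eq_div_iff ha hb] at h
  funext i
  fin_cases i
  · simp only [Fin.zero_eta, Pi.smul_apply, smul_eq_mul]
    field_simp
    linear_combination h
  · simp only [Fin.mk_one, Pi.smul_apply, smul_eq_mul]
    field_simp

theorem par_inf {a b : Fin 2 → ℂ} (ha : a ≠ 0) (hb : b ≠ 0) (ha1 : a 1 = 0) (hb1 : b 1 = 0) :
    Par a b := by
  obtain ⟨δ, h1, h2⟩ := par_of_cross ha hb (by simp [cross, ha1, hb1])
  exact ⟨δ, h1, h2⟩

/-- A sequence of vectors which are not parallel has infinitely many finite ratios. -/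
theorem infinite_ratio (B : ℕ → Fin 2 → ℂ) (h0 : ∀ k, B k ≠ 0)
    (h : ∀ i j, i ≠ j → ¬ Par (B i) (B j)) :
    {k | B k 1 ≠ 0}.Infinite ∧ Set.InjOn (fun k => B k 0 / B k 1) {k | B k 1 ≠ 0} := by
  constructor
  · have h1 : {k | B k 1 ≠ 0}ᶜ.Subsingleton := by
      intro i hi j hj
      rw [Set.mem_compl_iff, Set.mem_ofPred_eq, not_not] at hi hj
      by_contra hne
      exact h i j hne (par_inf (h0 i) (h0 j) hi hj)
    have h2 : ({k | B k 1 ≠ 0}ᶜ)ᶜ.Infinite := h1.finite.infinite_compl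
    rwa [compl_compl] at h2
  · intro i hi j hj hij
    by_contra hne
    exact h i j hne (par_ratio hi hj hij)

section

variable {d : ℕ} (F : Fin 2 → MvPolynomial (Fin 2) ℂ) (hF : ∀ i, (F i).IsHomogeneous d)
  (halg : ∀ i κ, IsAlgebraic ℚ ((F i).coeff κ))
  (h0 : ∀ x : Fin 2 → ℂ, (∀ i, eval x (F i) = 0) → x = 0)

include hF halg h0 in
/-- All orbits of a rational function of one variable over the algebraic numbers. -/
theorem half_tame_line (hd : 2 ≤ d) (x : Fin 2 → ℂ) : HalfTame F x := by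
  classical
  by_cases hx : x = 0
  · exact (tame_zero F (by omega) hF x 0 hx).half
  by_cases hpre : ∃ n m : ℕ, n ≠ m ∧ Par ((pt F)^[n] x) ((pt F)^[m] x)
  · obtain ⟨n, m, hlt, c, -, hc⟩ : ∃ n m : ℕ, n < m ∧ Par ((pt F)^[m] x) ((pt F)^[n] x) := by
      obtain ⟨n, m, hne, h⟩ := hpre
      rcases lt_or_gt_of_ne hne with h' | h'
      · exact ⟨n, m, h', h.symm⟩
      · exact ⟨m, n, h', h⟩
    obtain ⟨q, rfl⟩ := Nat.exists_eq_add_of_lt hlt
    refine (tame_preper 0 F hd hF x n (q + 1) (Nat.succ_pos q) c ?_).half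
    rw [← Nat.add_assoc]
    exact hc
  have hnpar : ∀ n m, n ≠ m → ¬ Par ((pt F)^[n] x) ((pt F)^[m] x) := fun n m hne h =>
    hpre ⟨n, m, hne, h⟩
  have hxne : ∀ n, (pt F)^[n] x ≠ 0 := by
    intro n
    induction n with
    | zero => exact hx
    | succ n ih =>
      rw [Function.iterate_succ_apply']
      exact pt_ne F h0 ih
  obtain ⟨B, hB, hfix, hjac, hstep, hBpar⟩ := exists_chain F hF halg h0 hd
  obtain ⟨hBinf, hBinj⟩ := infinite_ratio B (fun k => (hB k).1) hBpar
  obtain ⟨s₁, hs₁⟩ := near_etale F hF halg h0 B hB hfix hjac hstep x hx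
  refine ⟨F, x, Param.refl _ _, fun s => ?_⟩
  by_cases hxalg : ∃ (c : ℂ) (u : Fin 2 → ℂ), Alg u ∧ x = c • u
  · obtain ⟨c, u, hu, hxu⟩ := hxalg
    -- the number field
    let C : Finset ℂ := (Finset.univ.biUnion fun i : Fin 2 =>
      (F i).support.image fun κ => (F i).coeff κ) ∪ Finset.univ.image u
    have hCalg : ∀ y ∈ C, IsAlgebraic ℚ y := by
      intro y hy
      simp only [C, Finset.mem_union, Finset.mem_biUnion, Finset.mem_image, Finset.mem_univ,
        true_and] at hy
      rcases hy with ⟨i, κ, -, rfl⟩ | ⟨i, rfl⟩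
      · exact halg i κ
      · exact hu.2 i
    let E : IntermediateField ℚ ℂ := IntermediateField.adjoin ℚ (C : Set ℂ)
    haveI hE : FiniteDimensional ℚ E := IntermediateField.finiteDimensional_adjoin
      (fun y hy => (hCalg y hy).isIntegral)
    have hCE : ∀ y ∈ C, y ∈ E := fun y hy => IntermediateField.subset_adjoin ℚ _ hy
    have hFE : ∀ i κ, (F i).coeff κ ∈ E := by
      intro i κ
      by_cases hκ : κ ∈ (F i).support
      · refine hCE _ ?_
        simp only [C, Finset.mem_union, Finset.mem_biUnion, Finset.mem_image, Finset.mem_univ,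
          true_and]
        exact Or.inl ⟨i, κ, hκ, rfl⟩
      · rw [notMem_support_iff.1 hκ]
        exact E.zero_mem
    have huE : ∀ n i, (pt F)^[n] u i ∈ E := by
      intro n
      induction n with
      | zero =>
        intro i
        refine hCE _ ?_
        simp only [C, Finset.mem_union, Finset.mem_image, Finset.mem_univ, true_and]
        exact Or.inr ⟨i, rfl⟩
      | succ n ih =>
        intro i
        rw [Function.iterate_succ_apply']
        exact eval_mem_subring E.toSubring _ ih (F i) (fun κ => hFE i κ)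
    have hxn : ∀ n i, (pt F)^[n] x i = c ^ d ^ n * (pt F)^[n] u i := by
      intro n i
      have h1 := iterate_scale F d hF c u n
      rw [hxu]
      exact congrFun h1 i
    obtain ⟨hxinf, hxinj⟩ := infinite_ratio (fun n => (pt F)^[n] x) hxne hnpar
    let T : Set ℂ := (fun n => (pt F)^[n] x 0 / (pt F)^[n] x 1) '' {n | (pt F)^[n] x 1 ≠ 0}
    have hTinf : T.Infinite := hxinf.image hxinj
    have hTE : ∀ t ∈ T, t ∈ E := by
      rintro _ ⟨n, hn, rfl⟩
      have hn' : (pt F)^[n] x 1 ≠ 0 := hn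
      rw [hxn] at hn'
      have hc : c ^ d ^ n ≠ 0 := left_ne_zero_of_mul hn'
      have h1 : (pt F)^[n] x 0 / (pt F)^[n] x 1 = (pt F)^[n] u 0 / (pt F)^[n] u 1 := by
        rw [hxn, hxn, mul_div_mul_left _ _ hc]
      change (pt F)^[n] x 0 / (pt F)^[n] x 1 ∈ E
      rw [h1]
      exact E.div_mem (huE n 0) (huE n 1)
    -- three points
    let k : Fin 3 → ℕ := fun i => (hBinf.natEmbedding _ (i : ℕ) : {k | B k 1 ≠ 0}).1
    have hk1 : ∀ i, B (k i) 1 ≠ 0 := fun i => (hBinf.natEmbedding _ (i : ℕ)).2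
    have hkinj : Function.Injective k := by
      intro i j hij
      have h1 := (hBinf.natEmbedding _).injective (Subtype.ext hij)
      exact Fin.ext h1
    obtain ⟨s₂, hs₂alg, hs₂⟩ := hs₁ (∑ i, k i)
    have hkK : ∀ i, k i ≤ ∑ i, k i := fun i =>
      Finset.single_le_sum (f := k) (fun _ _ => Nat.zero_le _) (Finset.mem_univ i)
    let b : Fin 3 → Option ℂ := fun i => some (B (k i) 0 / B (k i) 1)
    have hb : Function.Injective b := by
      intro i j hij
      exact hkinj (hBinj (hk1 i) (hk1 j) (Option.some.inj hij))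
    have hbalg : ∀ i, ∀ z ∈ b i, IsAlgebraic ℚ z := by
      intro i z hz
      have h1 : B (k i) 0 / B (k i) 1 = z := Option.some.inj hz
      rw [← h1, div_eq_mul_inv]
      exact ((hB _).2 0).mul ((hB _).2 1).inv
    have hfin := near_line E b hb hbalg (fun _ => s ∪ s₁ ∪ s₂) (fun _ => AlgEquiv.refl) 1 le_rfl
    obtain ⟨t, htT, htn⟩ := hTinf.exists_notMem_finset hfin.toFinset
    rw [Set.Finite.mem_toFinset, Set.mem_ofPred_eq] at htn
    push Not at htn
    obtain ⟨i, -, hi⟩ := htn (hTE t htT)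
    obtain ⟨p, hp, τ, hτ, hlt⟩ := hi _ rfl
    obtain ⟨n, hn, rfl⟩ := htT
    exact ⟨p, hp, τ, fun y hy => hτ y (by simp [hy]),
      hs₂ p τ (fun y hy => hτ y (by simp [hy])) (fun y hy => hτ y (by simp [hy])) n (k i) (hkK i)
        (hk1 i) hn hlt⟩
  · -- transcendental ratio
    have hx1 : x 1 ≠ 0 := by
      intro h1
      apply hxalg
      refine ⟨x 0, ![1, 0], alg_infinity, ?_⟩
      funext i
      fin_cases i
      · simp
      · simp [h1]
    have ht : Transcendental ℚ (x 0 / x 1) := by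
      intro h1
      apply hxalg
      refine ⟨x 1, ![x 0 / x 1, 1], alg_affine h1, ?_⟩
      funext i
      fin_cases i
      · simp only [Fin.zero_eta, Pi.smul_apply, Matrix.cons_val_zero, smul_eq_mul]
        field_simp
      · simp
    obtain ⟨B₀, hB₀⟩ := emb_near_transc (s ∪ s₁) (x 0 / x 1) ht
    have hinf := hBinf.image hBinj
    obtain ⟨b, ⟨k, hk, rfl⟩, hbB⟩ := hinf.exists_notMem_finset B₀
    obtain ⟨s₂, hs₂alg, hs₂⟩ := hs₁ k
    obtain ⟨p, hp, τ, hτ1, hτ2, hlt⟩ := hB₀ _ (by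
      change IsAlgebraic ℚ (B k 0 / B k 1)
      rw [div_eq_mul_inv]
      exact ((hB _).2 0).mul ((hB _).2 1).inv) hbB s₂ hs₂alg
    exact ⟨p, hp, τ, fun y hy => hτ1 y (by simp [hy]),
      hs₂ p τ (fun y hy => hτ1 y (by simp [hy])) hτ2 0 k le_rfl hk hx1 hlt⟩

end

end Pool.Agent.L5helper26.DM
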