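import Pool.Agent.L5helper26.DM.Back

set_option autoImplicit false

/-! Orbits of a rational function of one variable which meet modulo `p` the backward orbit of a
noncritical fixed point. -/

namespace Pool.Agent.L5helper26.DM

open MvPolynomial Pool.Agent.H936R2 Pool.Agent.R847.PC

/-- The reduction. -/
noncomputable abbrev rd {p : ℕ} [Fact p.Prime] (τ : ℂ →+* PadicAlgCl p) :
    intR τ →+* ResF (PadicAlgCl p) := (res (PadicAlgCl p)).comp (toBall τ)

theorem rd_eq_zero {p : ℕ} [Fact p.Prime] (τ : ℂ →+* PadicAlgCl p) (x : intR τ) :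
    rd τ x = 0 ↔ ‖τ (x : ℂ)‖ < 1 := by
  rw [RingHom.comp_apply, res_eq_zero_iff, toBall_coe]

theorem etale_of_res {p : ℕ} [hp : Fact p.Prime] {ι : Type} [Fintype ι] [DecidableEq ι]
    (τ : ℂ →+* PadicAlgCl p) (gR : ι → MvPolynomial ι (intR τ)) (aR : ι → intR τ) (n0 : ℕ)
    (h : ∀ n, n0 ≤ n → (jac (fun i => map (rd τ) (gR i))
      ((pt fun i => map (rd τ) (gR i))^[n] fun i => rd τ (aR i))).det ≠ 0) :
    Etale τ (fun i => map (intR τ).subtype (gR i)) (fun i => (aR i : ℂ)) := by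
  refine ⟨fun i => ⟨gR i, rfl⟩, fun i => (aR i).2, n0, fun n hn => ?_⟩
  have h1 := h n hn
  rw [pt_map, jac_map, ← RingHom.map_det, Ne, rd_eq_zero] at h1
  have h2 : ((jac gR ((pt gR)^[n] aR)).det : ℂ) =
      (jac (fun i => map (intR τ).subtype (gR i))
        ((pt fun i => map (intR τ).subtype (gR i))^[n] fun i => (aR i : ℂ))).det := by
    have e1 := pt_map (intR τ).subtype gR aR n
    have e2 : (fun i => (intR τ).subtype (aR i)) = fun i => (aR i : ℂ) := rfl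
    rw [e2] at e1
    have e6 : ((jac gR ((pt gR)^[n] aR)).det : ℂ) =
      (intR τ).subtype (jac gR ((pt gR)^[n] aR)).det := rfl
    rw [e6, RingHom.map_det, ← jac_map, e1]
  rw [h2] at h1
  refine le_antisymm ?_ (not_lt.1 h1)
  rw [← h2]
  exact (jac gR ((pt gR)^[n] aR)).det.2

/-- Parallel vectors. -/
def Par {K ι : Type} [Field K] (a b : ι → K) : Prop := ∃ δ : K, δ ≠ 0 ∧ a = δ • b

theorem Par.refl {K ι : Type} [Field K] (a : ι → K) : Par a a := ⟨1, one_ne_zero, (one_smul _ _).symm⟩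

theorem Par.symm {K ι : Type} [Field K] {a b : ι → K} (h : Par a b) : Par b a := by
  obtain ⟨δ, h1, rfl⟩ := h
  exact ⟨δ⁻¹, inv_ne_zero h1, by rw [smul_smul, inv_mul_cancel₀ h1, one_smul]⟩

theorem Par.trans {K ι : Type} [Field K] {a b c : ι → K} (h : Par a b) (h' : Par b c) : Par a c := by
  obtain ⟨δ, h1, rfl⟩ := h
  obtain ⟨ε, h2, rfl⟩ := h'
  exact ⟨δ * ε, mul_ne_zero h1 h2, by rw [smul_smul]⟩

theorem Par.iter {K ι : Type} [Field K] {d : ℕ} {F : ι → MvPolynomial ι K}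
    (hF : ∀ i, (F i).IsHomogeneous d) {a b : ι → K} (h : Par a b) (n : ℕ) :
    Par ((pt F)^[n] a) ((pt F)^[n] b) := by
  obtain ⟨δ, h1, rfl⟩ := h
  refine ⟨δ ^ d ^ n, pow_ne_zero _ h1, ?_⟩
  exact iterate_scale F d hF δ b n

theorem Par.map {K ι : Type} [Field K] {d : ℕ} {F : ι → MvPolynomial ι K}
    (hF : ∀ i, (F i).IsHomogeneous d) {a b : ι → K} (h : Par a b) : Par (pt F a) (pt F b) :=
  h.iter hF 1

theorem Par.chain {K ι : Type} [Field K] {d : ℕ} {F : ι → MvPolynomial ι K}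
    (hF : ∀ i, (F i).IsHomogeneous d) {B : ℕ → ι → K}
    (hB : ∀ k, Par (pt F (B (k + 1))) (B k)) (k m : ℕ) : Par ((pt F)^[m] (B (k + m))) (B k) := by
  induction m with
  | zero => exact Par.refl _
  | succ m ih =>
    rw [Function.iterate_succ_apply]
    have h1 : Par ((pt F)^[m] (pt F (B (k + (m + 1))))) ((pt F)^[m] (B (k + m))) :=
      (hB (k + m)).iter hF m
    exact h1.trans ih

/-- The determinant at parallel vectors. -/
theorem jac_par {K : Type} [Field K] {d : ℕ} {F : Fin 2 → MvPolynomial (Fin 2) K}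
    (hF : ∀ i, (F i).IsHomogeneous d) {a b : Fin 2 → K} (h : Par a b)
    (hb : (jac F b).det ≠ 0) : (jac F a).det ≠ 0 := by
  obtain ⟨δ, h1, rfl⟩ := h
  have h2 : jac F (δ • b) = δ ^ (d - 1) • jac F b := by
    ext i j
    exact eval_scale (pderiv j (F i)) (d - 1) ((hF i).pderiv) δ b
  rw [h2, Matrix.det_smul]
  exact mul_ne_zero (pow_ne_zero _ (pow_ne_zero _ h1)) hb

theorem homog_lift {R : Subring ℂ} {ι : Type} {d : ℕ} (Q : MvPolynomial ι R)
    (h : (map R.subtype Q).IsHomogeneous d) : Q.IsHomogeneous d := by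
  intro κ hκ
  apply h
  rw [coeff_map]
  intro h0
  exact hκ (Subtype.ext h0)

section

variable {d : ℕ} (F : Fin 2 → MvPolynomial (Fin 2) ℂ) (hF : ∀ i, (F i).IsHomogeneous d)
  (halg : ∀ i κ, IsAlgebraic ℚ ((F i).coeff κ))
  (h0 : ∀ x : Fin 2 → ℂ, (∀ i, eval x (F i) = 0) → x = 0)

include h0 in
theorem pt_ne {v : Fin 2 → ℂ} (hv : v ≠ 0) : pt F v ≠ 0 := fun h =>
  hv (h0 v fun i => congrFun h i)

include hF halg h0 in
/-- The backward orbit. -/
theorem exists_chain (hd : 2 ≤ d) : ∃ B : ℕ → Fin 2 → ℂ, (∀ k, Alg (B k)) ∧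
    Par (pt F (B 0)) (B 0) ∧ (jac F (B 0)).det ≠ 0 ∧ (∀ k, Par (pt F (B (k + 1))) (B k)) ∧
    ∀ i j, i ≠ j → ¬ Par (B i) (B j) := by
  classical
  obtain ⟨z, w, hz, hw, h1, h2, h3, h4⟩ := exists_start F hF halg h0 hd
  choose pre hpre1 hpre2 using fun v : {v : Fin 2 → ℂ // Alg v} =>
    exists_preimage F hF halg (show 1 ≤ d by omega) v.1 v.2
  let W : ℕ → {v : Fin 2 → ℂ // Alg v} := fun n =>
    Nat.rec (motive := fun _ => {v : Fin 2 → ℂ // Alg v}) ⟨w, hw⟩
      (fun _ v => ⟨pre v, hpre1 v⟩) n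
  let B : ℕ → Fin 2 → ℂ := fun n => Nat.casesOn n z (fun m => (W m).1)
  have hB0 : B 0 = z := rfl
  have hB1 : B 1 = w := rfl
  have hB2 : ∀ m, B (m + 2) = pre (W m) := fun m => rfl
  have hB3 : ∀ m, B (m + 1) = (W m).1 := fun m => rfl
  have hBalg : ∀ k, Alg (B k) := by
    intro k
    rcases k with _ | k
    · exact hz
    · rw [hB3]
      exact (W k).2
  have hstep : ∀ k, Par (pt F (B (k + 1))) (B k) := by
    intro k
    have hne := pt_ne F h0 (hBalg (k + 1)).1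
    obtain ⟨δ, hδ, h⟩ := par_of_cross hne (hBalg k).1 (by
      rcases k with _ | k
      · exact h3
      · rw [hB2, hB3]
        exact hpre2 (W k))
    exact ⟨δ, hδ, h⟩
  have hfix : Par (pt F (B 0)) (B 0) := by
    obtain ⟨δ, hδ, h⟩ := par_of_cross (pt_ne F h0 (hBalg 0).1) (hBalg 0).1 h1
    exact ⟨δ, hδ, h⟩
  have hfixn : ∀ n, Par ((pt F)^[n] (B 0)) (B 0) := by
    intro n
    induction n with
    | zero => exact Par.refl _
    | succ n ih =>
      rw [Function.iterate_succ_apply']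
      exact (ih.map hF).trans hfix
  have h10 : ¬ Par (B 1) (B 0) := by
    rintro ⟨δ, -, h⟩
    apply h4
    rw [← hB1, ← hB0, h]
    simp only [cross, Pi.smul_apply, smul_eq_mul]
    ring
  have hk0 : ∀ k, ¬ Par (B (k + 1)) (B 0) := by
    intro k h
    have e1 : Par ((pt F)^[k] (B (1 + k))) (B 1) := Par.chain hF hstep 1 k
    rw [Nat.add_comm 1 k] at e1
    exact h10 ((e1.symm.trans (h.iter hF k)).trans (hfixn k))
  have hij : ∀ i j, i < j → ¬ Par (B i) (B j) := by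
    intro i j hlt h
    obtain ⟨l, rfl⟩ := Nat.exists_eq_add_of_lt hlt
    have e1 : Par ((pt F)^[i] (B (0 + i))) (B 0) := Par.chain hF hstep 0 i
    have e2 : Par ((pt F)^[i] (B (l + 1 + i))) (B (l + 1)) := Par.chain hF hstep (l + 1) i
    rw [Nat.zero_add] at e1
    have e3 : i + l + 1 = l + 1 + i := by ring
    rw [e3] at h
    exact hk0 l ((e2.symm.trans (h.symm.iter hF i)).trans e1)
  refine ⟨B, hBalg, hfix, h2, hstep, fun i j hne h => ?_⟩
  rcases lt_or_gt_of_ne hne with h' | h'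
  · exact hij i j h' h
  · exact hij j i h' h.symm

include hF halg h0 in
/-- If modulo `p` the orbit of `x` meets the backward orbit of the noncritical fixed point, then it
is étale from some time on. -/
theorem near_etale (B : ℕ → Fin 2 → ℂ) (hB : ∀ k, Alg (B k)) (hfix : Par (pt F (B 0)) (B 0))
    (hjac : (jac F (B 0)).det ≠ 0) (hstep : ∀ k, Par (pt F (B (k + 1))) (B k))
    (x : Fin 2 → ℂ) (hx : x ≠ 0) :
    ∃ s₁ : Finset ℂ, ∀ K : ℕ, ∃ s₂ : Finset ℂ, (∀ y ∈ s₂, IsAlgebraic ℚ y) ∧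
      ∀ (p : ℕ) [Fact p.Prime] (τ : ℂ →+* PadicAlgCl p), (∀ y ∈ s₁, ‖τ y‖ ≤ 1) →
        (∀ y ∈ s₂, ‖τ y‖ ≤ 1) → ∀ n k, k ≤ K → B k 1 ≠ 0 → (pt F)^[n] x 1 ≠ 0 →
        ‖τ ((pt F)^[n] x 0 / (pt F)^[n] x 1 - B k 0 / B k 1)‖ < 1 → Etale τ F x := by
  classical
  obtain ⟨s0, hs0⟩ := endo_cert F h0
  obtain ⟨c, hc⟩ := coeffs_finset (Finset.univ.image F)
  obtain ⟨i, hi⟩ := Function.ne_iff.1 hx
  rw [Pi.zero_apply] at hi
  choose δ hδ0 hδ using hstep
  obtain ⟨γ, hγ0, hγ⟩ := hfix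
  have hptalg : ∀ v : Fin 2 → ℂ, (∀ i, IsAlgebraic ℚ (v i)) → ∀ i, IsAlgebraic ℚ (pt F v i) := by
    intro v hv i
    have h1 : F i ∈ Set.range (map (σ := Fin 2) (algebraMap (algebraicClosure ℚ ℂ) ℂ)) := by
      rw [mem_range_map_iff_coeffs_subset]
      intro c hc
      rw [Finset.mem_coe, mem_coeffs_iff] at hc
      obtain ⟨κ, -, rfl⟩ := hc
      exact ⟨⟨(F i).coeff κ, mem_algebraicClosure_iff.2 (halg i κ)⟩, rfl⟩
    obtain ⟨P', hP'⟩ := h1
    let v' : Fin 2 → algebraicClosure ℚ ℂ := fun i => ⟨v i, mem_algebraicClosure_iff.2 (hv i)⟩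
    have h2 : pt F v i = ((eval v' P' : algebraicClosure ℚ ℂ) : ℂ) := by
      change eval v (F i) = _
      rw [← hP', eval_map]
      have h3 := eval₂_comp_left (algebraMap (algebraicClosure ℚ ℂ) ℂ) (RingHom.id _) v' P'
      rw [RingHom.comp_id] at h3
      exact h3.symm
    rw [h2]
    exact mem_algebraicClosure_iff.1 (Subtype.mem _)
  have hδalg : ∀ k, IsAlgebraic ℚ (δ k) := by
    intro k
    obtain ⟨j, hj⟩ := Function.ne_iff.1 (hB k).1
    rw [Pi.zero_apply] at hj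
    have h1 := congrFun (hδ k) j
    rw [Pi.smul_apply, smul_eq_mul] at h1
    have h2 : δ k = pt F (B (k + 1)) j * (B k j)⁻¹ := by
      rw [h1, mul_assoc, mul_inv_cancel₀ hj, mul_one]
    rw [h2]
    exact (hptalg _ (hB (k + 1)).2 j).mul ((hB k).2 j).inv
  refine ⟨s0 ∪ c ∪ Finset.univ.image x ∪ {(x i)⁻¹} ∪ {γ, γ⁻¹} ∪ {((jac F (B 0)).det)⁻¹},
    fun K => ⟨((Finset.range (K + 1)).biUnion fun k => Finset.univ.image (B k)) ∪
      ((Finset.range (K + 1)).image fun k => (B k 1)⁻¹) ∪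
      ((Finset.range (K + 1)).image δ) ∪ ((Finset.range (K + 1)).image fun k => (δ k)⁻¹) ∪
      (Finset.univ.image fun j => (B 0 j)⁻¹),
      fun y hy => ?_, fun p hp τ hτ1 hτ2 n k hkK hBk hxn hnear => ?_⟩⟩
  · simp only [Finset.mem_union, Finset.mem_biUnion, Finset.mem_image, Finset.mem_univ,
      true_and] at hy
    rcases hy with (((⟨k, -, j, rfl⟩ | ⟨k, -, rfl⟩) | ⟨k, -, rfl⟩) | ⟨k, -, rfl⟩) | ⟨j, rfl⟩
    · exact (hB k).2 j
    · exact ((hB k).2 1).inv
    · exact hδalg k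
    · exact (hδalg k).inv
    · exact ((hB 0).2 j).inv
  -- integrality
  have hFI : ∀ j, Int (intR τ) (F j) := fun j =>
    hc (intR τ) (fun z hz => hτ1 z (by simp [Finset.mem_coe.1 hz])) _
      (Finset.mem_image_of_mem _ (Finset.mem_univ j))
  choose FR hFR using hFI
  have hFR' : (fun j => map (intR τ).subtype (FR j)) = F := _root_.funext hFR
  have hxI : ∀ j, x j ∈ intR τ := fun j => hτ1 _ (by simp)
  have hBI : ∀ l, l ≤ K → ∀ j, B l j ∈ intR τ := fun l hl j => hτ2 _ (by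
    simp only [Finset.mem_union, Finset.mem_biUnion, Finset.mem_image, Finset.mem_univ, true_and,
      Finset.mem_range]
    exact Or.inl (Or.inl (Or.inl (Or.inl ⟨l, by omega, j, rfl⟩))))
  have hB1I : ∀ l, l ≤ K → ‖τ (B l 1)⁻¹‖ ≤ 1 := fun l hl => hτ2 _ (by
    simp only [Finset.mem_union, Finset.mem_biUnion, Finset.mem_image, Finset.mem_univ, true_and,
      Finset.mem_range]
    exact Or.inl (Or.inl (Or.inl (Or.inr ⟨l, by omega, rfl⟩))))
  have hδI : ∀ l, l ≤ K → δ l ∈ intR τ := fun l hl => hτ2 _ (by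
    simp only [Finset.mem_union, Finset.mem_biUnion, Finset.mem_image, Finset.mem_univ, true_and,
      Finset.mem_range]
    exact Or.inl (Or.inl (Or.inr ⟨l, by omega, rfl⟩)))
  have hδI' : ∀ l, l ≤ K → ‖τ (δ l)⁻¹‖ ≤ 1 := fun l hl => hτ2 _ (by
    simp only [Finset.mem_union, Finset.mem_biUnion, Finset.mem_image, Finset.mem_univ, true_and,
      Finset.mem_range]
    exact Or.inl (Or.inr ⟨l, by omega, rfl⟩))
  have hγI : γ ∈ intR τ := hτ1 _ (by simp)
  have hγI' : ‖τ γ⁻¹‖ ≤ 1 := hτ1 _ (by simp)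
  have hjI' : ‖τ ((jac F (B 0)).det)⁻¹‖ ≤ 1 := hτ1 _ (by simp)
  -- units
  have hunit : ∀ (u : intR τ), (u : ℂ) ≠ 0 → ‖τ (u : ℂ)⁻¹‖ ≤ 1 → rd τ u ≠ 0 := by
    intro u hu hu' h
    rw [rd_eq_zero, norm_eq_one_of τ hu u.2 hu'] at h
    exact lt_irrefl _ h
  -- the reductions
  let Fb : Fin 2 → MvPolynomial (Fin 2) (ResF (PadicAlgCl p)) := fun j => map (rd τ) (FR j)
  have hFb : ∀ j, (Fb j).IsHomogeneous d := fun j =>
    (homog_lift (FR j) (by rw [hFR]; exact hF j)).map _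
  have hFbne : ∀ v : Fin 2 → ResF (PadicAlgCl p), v ≠ 0 → ∀ n, (pt Fb)^[n] v ≠ 0 := by
    have h1 := hs0 (intR τ) (fun z hz => hτ1 z (by simp [Finset.mem_coe.1 hz])) FR hFR
      (ResF (PadicAlgCl p)) (rd τ)
    intro v hv n
    induction n with
    | zero => exact hv
    | succ n ih =>
      rw [Function.iterate_succ_apply']
      exact fun h => ih (h1 _ fun j => congrFun h j)
  -- relations between integral vectors reduce
  have hred : ∀ (v : Fin 2 → intR τ) (n : ℕ) (w : Fin 2 → intR τ) (u : intR τ),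
      (pt F)^[n] (fun j => (v j : ℂ)) = (u : ℂ) • (fun j => (w j : ℂ)) →
      (pt Fb)^[n] (fun j => rd τ (v j)) = rd τ u • fun j => rd τ (w j) := by
    intro v n w u h
    have e1 := pt_map (intR τ).subtype FR v n
    rw [hFR'] at e1
    have e2 : (fun i => (intR τ).subtype (v i)) = fun j => (v j : ℂ) := rfl
    rw [e2, h] at e1
    have e3 := pt_map (rd τ) FR v n
    change (pt Fb)^[n] _ = _ at e3
    rw [e3]
    funext j
    rw [Pi.smul_apply, smul_eq_mul, ← map_mul]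
    congr 1
    apply Subtype.ext
    have e4 := congrFun e1 j
    exact e4.symm
  let Bb : ℕ → Fin 2 → ResF (PadicAlgCl p) := fun l j =>
    if h : B l j ∈ intR τ then rd τ ⟨B l j, h⟩ else 0
  have hBb : ∀ l (hl : l ≤ K), Bb l = fun j => rd τ ⟨B l j, hBI l hl j⟩ := by
    intro l hl
    funext j
    simp only [Bb]
    rw [dif_pos (hBI l hl j)]
  have hstepb : ∀ l, l + 1 ≤ K → Par (pt Fb (Bb (l + 1))) (Bb l) := by
    intro l hl
    refine ⟨rd τ ⟨δ l, hδI l (by omega)⟩, hunit _ (hδ0 l) (hδI' l (by omega)), ?_⟩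
    rw [hBb (l + 1) hl, hBb l (by omega)]
    exact hred (fun j => ⟨B (l + 1) j, hBI _ hl j⟩) 1 (fun j => ⟨B l j, hBI l (by omega) j⟩)
      ⟨δ l, hδI l (by omega)⟩ (hδ l)
  have hfixb : Par (pt Fb (Bb 0)) (Bb 0) := by
    refine ⟨rd τ ⟨γ, hγI⟩, hunit _ hγ0 hγI', ?_⟩
    rw [hBb 0 (Nat.zero_le _)]
    exact hred (fun j => ⟨B 0 j, hBI _ (Nat.zero_le _) j⟩) 1
      (fun j => ⟨B 0 j, hBI 0 (Nat.zero_le _) j⟩) ⟨γ, hγI⟩ hγ
  have hjacb : (jac Fb (Bb 0)).det ≠ 0 := by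
    rw [hBb 0 (Nat.zero_le _)]
    have e1 := jac_map (rd τ) FR (fun j => ⟨B 0 j, hBI 0 (Nat.zero_le _) j⟩)
    change jac Fb _ = _ at e1
    rw [e1, ← RingHom.map_det]
    have e2 := jac_map (intR τ).subtype FR (fun j => ⟨B 0 j, hBI 0 (Nat.zero_le _) j⟩)
    rw [hFR'] at e2
    have e3 : (((jac FR (fun j => ⟨B 0 j, hBI 0 (Nat.zero_le _) j⟩)).det : intR τ) : ℂ) =
        (jac F (B 0)).det := by
      have e6 : (((jac FR (fun j => ⟨B 0 j, hBI 0 (Nat.zero_le _) j⟩)).det : intR τ) : ℂ) =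
        (intR τ).subtype (jac FR (fun j => ⟨B 0 j, hBI 0 (Nat.zero_le _) j⟩)).det := rfl
      rw [e6, RingHom.map_det, ← e2]
      rfl
    refine hunit _ ?_ ?_
    · rw [e3]
      exact hjac
    · rw [e3]
      exact hjI'
  -- the orbit
  let xR : Fin 2 → intR τ := fun j => ⟨x j, hxI j⟩
  let xb : Fin 2 → ResF (PadicAlgCl p) := fun j => rd τ (xR j)
  have hxb : xb ≠ 0 := by
    intro h
    have h1 := congrFun h i
    have h2 : ‖τ (x i)⁻¹‖ ≤ 1 := hτ1 _ (by simp)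
    exact hunit (xR i) hi h2 h1
  have hitR : ∀ n j, (((pt FR)^[n] xR j : intR τ) : ℂ) = (pt F)^[n] x j := by
    intro n j
    have e1 := pt_map (intR τ).subtype FR xR n
    rw [hFR'] at e1
    exact (congrFun e1 j).symm
  have hitb : ∀ n j, (pt Fb)^[n] xb j = rd τ ((pt FR)^[n] xR j) := by
    intro n j
    exact congrFun (pt_map (rd τ) FR xR n) j
  -- the near point
  have hparn : Par ((pt Fb)^[n] xb) (Bb k) := by
    have hB1u : (⟨B k 1, hBI k hkK 1⟩ : intR τ).1 ≠ 0 := hBk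
    have hb : B k 0 / B k 1 ∈ intR τ := by
      rw [div_eq_mul_inv]
      exact (intR τ).mul_mem (hBI k hkK 0) (hB1I k hkK)
    have hu : (pt F)^[n] x 0 / (pt F)^[n] x 1 ∈ intR τ := by
      have e1 : (pt F)^[n] x 0 / (pt F)^[n] x 1 =
          ((pt F)^[n] x 0 / (pt F)^[n] x 1 - B k 0 / B k 1) + B k 0 / B k 1 := by ring
      rw [e1]
      exact (intR τ).add_mem hnear.le hb
    have e0 : rd τ ⟨_, hu⟩ = rd τ ⟨_, hb⟩ := by
      rw [← sub_eq_zero, ← map_sub, rd_eq_zero]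
      exact hnear
    have e1 : (pt FR)^[n] xR 0 = ⟨_, hu⟩ * (pt FR)^[n] xR 1 := by
      apply Subtype.ext
      change (((pt FR)^[n] xR 0 : intR τ) : ℂ) = _ * (((pt FR)^[n] xR 1 : intR τ) : ℂ)
      rw [hitR, hitR, div_mul_cancel₀ _ hxn]
    have e2 : (⟨B k 0, hBI k hkK 0⟩ : intR τ) = ⟨_, hb⟩ * ⟨B k 1, hBI k hkK 1⟩ := by
      apply Subtype.ext
      change B k 0 = _ * B k 1
      rw [div_mul_cancel₀ _ hBk]
    have hne := hFbne xb hxb n
    have h1ne : rd τ ((pt FR)^[n] xR 1) ≠ 0 := by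
      intro h
      apply hne
      funext j
      rw [hitb]
      fin_cases j
      · change rd τ ((pt FR)^[n] xR 0) = 0
        rw [e1, map_mul, h, mul_zero]
      · exact h
    have hBne : rd τ ⟨B k 1, hBI k hkK 1⟩ ≠ 0 := hunit _ hB1u (hB1I k hkK)
    refine ⟨rd τ ((pt FR)^[n] xR 1) * (rd τ ⟨B k 1, hBI k hkK 1⟩)⁻¹,
      mul_ne_zero h1ne (inv_ne_zero hBne), ?_⟩
    rw [hBb k hkK]
    funext j
    rw [hitb, Pi.smul_apply, smul_eq_mul]
    fin_cases j
    · change rd τ ((pt FR)^[n] xR 0) = _ * rd τ ⟨B k 0, hBI k hkK 0⟩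
      rw [e1, e2, map_mul, map_mul, e0]
      field_simp
    · change rd τ ((pt FR)^[n] xR 1) = _ * rd τ ⟨B k 1, hBI k hkK 1⟩
      rw [mul_assoc, inv_mul_cancel₀ hBne, mul_one]
  -- the rest of the orbit
  have hdown : ∀ l, l ≤ k → Par ((pt Fb)^[n + l] xb) (Bb (k - l)) := by
    intro l
    induction l with
    | zero => exact fun _ => hparn
    | succ l ih =>
      intro hl
      have h1 := (ih (by omega)).map hFb
      rw [← Function.iterate_succ_apply' (f := pt Fb)] at h1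
      have h2 := hstepb (k - (l + 1)) (by omega)
      have e : k - (l + 1) + 1 = k - l := by omega
      rw [e] at h2
      exact h1.trans h2
  have hfar : ∀ l, Par ((pt Fb)^[n + k + l] xb) (Bb 0) := by
    intro l
    induction l with
    | zero =>
      have h1 := hdown k le_rfl
      rw [Nat.sub_self] at h1
      exact h1
    | succ l ih =>
      have h1 := ih.map hFb
      rw [← Function.iterate_succ_apply' (f := pt Fb)] at h1
      exact h1.trans hfixb
  have hfinal := etale_of_res τ FR xR (n + k) (fun m hm => by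
    obtain ⟨l, rfl⟩ := Nat.exists_eq_add_of_le hm
    exact jac_par hFb (hfar l) hjacb)
  rw [hFR'] at hfinal
  exact hfinal

end

end Pool.Agent.L5helper26.DM
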