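import Pool.Agent.L5helper26.DM.Etale

set_option autoImplicit false

/-! Examples of tame orbits: strictly critically finite maps, power maps, preperiodic points. -/

namespace Pool.Agent.L5helper26.DM

open MvPolynomial Pool.Agent.H936R2 Pool.Agent.R847.QP Pool.Agent.R847.Gap Pool.Agent.R847.PC
open Pool.Agent.Y199.DM

/-- A polynomial map whose reduction has no cycles through critical points. -/
theorem etale_of_ncc {p : ℕ} [hp : Fact p.Prime] {N : ℕ} (τ : ℂ →+* PadicAlgCl p)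
    (g : Fin (N + 1) → MvPolynomial (Fin (N + 1)) ℂ) (a : Fin (N + 1) → ℂ)
    (hg : ∀ i, Int (intR τ) (g i)) (ha : ∀ i, a i ∈ intR τ) (hne : ∃ i, ‖τ (a i)‖ = 1)
    (h : Ncc τ g) : Etale τ g a := by
  classical
  refine ⟨hg, ha, ?_⟩
  choose gR hgR using hg
  obtain ⟨h1, h2⟩ := h gR hgR
  set O := unitBall (PadicAlgCl p) with hO
  let FO : Fin (N + 1) → MvPolynomial (Fin (N + 1)) O := fun i => map (toBall τ) (gR i)
  let aR : Fin (N + 1) → intR τ := fun i => ⟨a i, ha i⟩
  let b : Fin (N + 1) → O := fun i => toBall τ (aR i)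
  have e3 : (fun i => map (intR τ).subtype (gR i)) = g := _root_.funext hgR
  have hitR : ∀ n i, (((pt gR)^[n] aR i : intR τ) : ℂ) = (pt g)^[n] a i := by
    intro n i
    have e1 := pt_map (intR τ).subtype gR aR n
    have e4 : (fun i => (intR τ).subtype (aR i)) = a := rfl
    rw [e3, e4] at e1
    exact (congrFun e1 i).symm
  have hFb : (fun i => map (res (PadicAlgCl p)) (FO i)) =
      fun i => map ((res (PadicAlgCl p)).comp (toBall τ)) (gR i) := by
    funext i
    exact map_map _ _ _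
  obtain ⟨M, m, hm, hper⟩ := res_orbit_periodic p FO b
  refine ⟨M, fun n hn => ?_⟩
  have e1 := pt_map (toBall τ) gR aR n
  change (pt FO)^[n] b = _ at e1
  have hb0 : (fun i => res (PadicAlgCl p) (b i)) ≠ 0 := by
    intro h0
    obtain ⟨i, hi⟩ := hne
    have h3 := congrFun h0 i
    rw [Pi.zero_apply, res_eq_zero_iff, toBall_coe] at h3
    change ‖τ (a i)‖ < 1 at h3
    rw [hi] at h3
    exact lt_irrefl _ h3
  have hbn : (fun i => res (PadicAlgCl p) ((pt FO)^[n] b i)) ≠ 0 := by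
    have h3 := pt_map (res (PadicAlgCl p)) FO b n
    rw [← h3, hFb]
    exact pt_ne_zero _ h1 _ hb0 n
  have h4 := hper n hn
  rw [hFb] at h4
  have h5 := h2 _ hbn m hm h4
  rw [← hFb, jac_map, ← RingHom.map_det, Ne, res_eq_zero_iff] at h5
  have h6 : ((jac FO ((pt FO)^[n] b)).det : PadicAlgCl p) = τ ((jac g ((pt g)^[n] a)).det) := by
    have e2 : jac FO (fun i => toBall τ ((pt gR)^[n] aR i)) = _ :=
      jac_map (toBall τ) gR ((pt gR)^[n] aR)
    rw [e1, e2, ← RingHom.map_det, toBall_coe]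
    congr 1
    have e6 : ((jac gR ((pt gR)^[n] aR)).det : ℂ) =
      (intR τ).subtype (jac gR ((pt gR)^[n] aR)).det := rfl
    rw [e6, RingHom.map_det, ← jac_map, e3]
    congr 2
    funext i
    exact hitR n i
  rw [h6] at h5
  refine le_antisymm ?_ (not_lt.1 h5)
  rw [← h6]
  exact unitBall_norm_le _

/-- The points of projective space under a strictly critically finite endomorphism. -/
theorem tame_scf {N d : ℕ} (hd : 1 ≤ d) (f : Fin (N + 1) → MvPolynomial (Fin (N + 1)) ℂ)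
    (hf : ∀ i, (f i).IsHomogeneous d)
    (h0 : ∀ x : Fin (N + 1) → ℂ, (∀ i, eval x (f i) = 0) → x = 0) (k : ℕ)
    (D : ℕ → Set (MvPolynomial (Fin (N + 1)) ℂ)) (hch : Chain f k D)
    (hD0 : ∀ z : Fin (N + 1) → ℂ, z ≠ 0 → ∀ g ∈ D 0, eval z g = 0)
    (y : Fin (N + 1) → ℂ) (hy : y ≠ 0) : Tame f y := by
  classical
  obtain ⟨s, hs⟩ := ncc_scf (d := d) hd f hf h0 k D hch hD0
  obtain ⟨c, hc⟩ := coeffs_finset (Finset.univ.image f)
  obtain ⟨i, hi⟩ := Function.ne_iff.1 hy
  rw [Pi.zero_apply] at hi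
  refine ⟨f, y, Param.refl _ _, s ∪ c ∪ Finset.univ.image y ∪ {(y i)⁻¹}, fun p hp τ hτ => ?_⟩
  have hyi : ∀ j, ‖τ (y j)‖ ≤ 1 := fun j => hτ _ (by simp)
  refine etale_of_ncc τ f y (fun j => ?_) hyi ⟨i, ?_⟩ (hs p τ fun z hz => hτ z (by simp [hz]))
  · exact hc (intR τ) (fun z hz => hτ z (by simp [Finset.mem_coe.1 hz])) _
      (Finset.mem_image_of_mem _ (Finset.mem_univ j))
  · refine le_antisymm (hyi i) ?_
    have h1 : ‖τ (y i)⁻¹‖ ≤ 1 := hτ _ (by simp)
    rw [map_inv₀, norm_inv] at h1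
    have h2 : 0 < ‖τ (y i)‖ := norm_pos_iff.2 ((map_ne_zero τ).2 hi)
    exact (inv_le_one₀ h2).1 h1

/-! ### Diagonal maps -/

variable {κ : Type} [Fintype κ] [DecidableEq κ]

/-- The norm of a number which is integral together with its inverse. -/
theorem norm_eq_one_of {p : ℕ} [Fact p.Prime] (τ : ℂ →+* PadicAlgCl p) {x : ℂ} (hx : x ≠ 0)
    (h1 : ‖τ x‖ ≤ 1) (h2 : ‖τ x⁻¹‖ ≤ 1) : ‖τ x‖ = 1 := by
  refine le_antisymm h1 ?_
  rw [map_inv₀, norm_inv] at h2
  exact (inv_le_one₀ (norm_pos_iff.2 ((map_ne_zero τ).2 hx))).1 h2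

/-- The map which is `c_i X_i^d` at some coordinates and the identity at the others. -/
noncomputable def dg (c : κ → ℂ) (d : ℕ) (A : κ → Prop) [DecidablePred A] :
    κ → MvPolynomial κ ℂ := fun i => if A i then C (c i) * X i ^ d else X i

theorem jac_dg (c : κ → ℂ) (d : ℕ) (A : κ → Prop) [DecidablePred A] (x : κ → ℂ) :
    (jac (dg c d A) x).det = ∏ i, if A i then c i * (d * x i ^ (d - 1)) else 1 := by
  have h : jac (dg c d A) x =
      Matrix.diagonal fun i => if A i then c i * (d * x i ^ (d - 1)) else 1 := by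
    ext i j
    rw [Matrix.diagonal_apply]
    change eval x (pderiv j (dg c d A i)) = _
    unfold dg
    by_cases hA : A i
    · rw [if_pos hA]
      by_cases hij : i = j
      · subst hij
        rw [if_pos rfl, if_pos hA, pderiv_C_mul, pderiv_pow, pderiv_X_self]
        simp
      · rw [if_neg hij, pderiv_C_mul, pderiv_pow, pderiv_X_of_ne hij]
        simp
    · rw [if_neg hA]
      by_cases hij : i = j
      · subst hij
        rw [if_pos rfl, if_neg hA, pderiv_X_self, map_one]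
      · rw [if_neg hij, pderiv_X_of_ne hij, map_zero]
  rw [h, Matrix.det_diagonal]

omit [Fintype κ] [DecidableEq κ] in
theorem pt_dg (c : κ → ℂ) (d : ℕ) (A : κ → Prop) [DecidablePred A] (x : κ → ℂ) (i : κ) :
    pt (dg c d A) x i = if A i then c i * x i ^ d else x i := by
  change eval x (dg c d A i) = _
  unfold dg
  split_ifs <;> simp

/-- Étaleness of the diagonal maps. -/
theorem etale_dg {p : ℕ} [Fact p.Prime] (τ : ℂ →+* PadicAlgCl p) (c : κ → ℂ) (d : ℕ) (hd : d ≠ 0)
    (A : κ → Prop) [DecidablePred A] (x : κ → ℂ) (hc : ∀ i, A i → ‖τ (c i)‖ = 1)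
    (hx : ∀ i, ‖τ (x i)‖ ≤ 1) (hxA : ∀ i, A i → ‖τ (x i)‖ = 1) (hdi : ‖τ (d : ℂ)⁻¹‖ ≤ 1) :
    Etale τ (dg c d A) x := by
  have hdn : ‖τ (d : ℂ)‖ = 1 := by
    refine norm_eq_one_of τ (by exact_mod_cast hd) ?_ hdi
    rw [map_natCast]
    exact_mod_cast Pool.Agent.H936R2.norm_intCast_le (K := PadicAlgCl p) (d : ℤ)
  refine ⟨fun i => ?_, hx, 0, fun n _ => ?_⟩
  · unfold dg
    by_cases hA : A i
    · rw [if_pos hA]
      exact ⟨C (⟨c i, (hc i hA).le⟩ : intR τ) * X i ^ d, by simp⟩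
    · rw [if_neg hA]
      exact ⟨X i, by simp⟩
  · have hit : ∀ n i, A i → ‖τ ((pt (dg c d A))^[n] x i)‖ = 1 := by
      intro n
      induction n with
      | zero => exact hxA
      | succ n ih =>
        intro i hA
        rw [Function.iterate_succ_apply', pt_dg, if_pos hA, map_mul, norm_mul, map_pow, norm_pow,
          hc i hA, ih i hA, one_pow, one_mul]
    rw [jac_dg, map_prod, norm_prod]
    refine Finset.prod_eq_one fun i _ => ?_
    by_cases hA : A i
    · rw [if_pos hA, map_mul, norm_mul, map_mul, norm_mul, map_pow, norm_pow, hc i hA, hdn,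
        hit n i hA, one_pow, one_mul, one_mul]
    · rw [if_neg hA, map_one, norm_one]

/-- The power maps. -/
theorem tame_power (c : κ → ℂ) (hc : ∀ i, c i ≠ 0) (d : ℕ) (hd : 1 ≤ d) (y : κ → ℂ) :
    Tame (fun i => (C (c i) * X i ^ d : MvPolynomial κ ℂ)) y := by
  classical
  refine ⟨dg c d fun i => y i ≠ 0, y, Param.of_eq fun n => ?_,
    Finset.univ.image c ∪ Finset.univ.image (fun i => (c i)⁻¹) ∪ Finset.univ.image y ∪
      Finset.univ.image (fun i => (y i)⁻¹) ∪ {(d : ℂ)⁻¹}, fun p hp τ hτ => ?_⟩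
  · have h0 : ∀ n i, y i = 0 → (pt (dg c d fun i => y i ≠ 0))^[n] y i = 0 := by
      intro n
      induction n with
      | zero => exact fun i h => h
      | succ n ih =>
        intro i hi
        rw [Function.iterate_succ_apply', pt_dg, if_neg (not_not.2 hi), ih i hi]
    induction n with
    | zero => rfl
    | succ n ih =>
      rw [Function.iterate_succ_apply', ih, Function.iterate_succ_apply']
      funext i
      rw [pt_dg]
      change eval _ (C (c i) * X i ^ d) = _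
      rw [map_mul, map_pow, eval_C, eval_X]
      by_cases hi : y i = 0
      · rw [if_neg (not_not.2 hi), h0 n i hi, zero_pow (by omega), mul_zero]
      · rw [if_pos hi]
  · have hc1 : ∀ i, ‖τ (c i)‖ ≤ 1 := fun i => hτ _ (by simp)
    have hc2 : ∀ i, ‖τ (c i)⁻¹‖ ≤ 1 := fun i => hτ _ (by simp)
    have hy1 : ∀ i, ‖τ (y i)‖ ≤ 1 := fun i => hτ _ (by simp)
    have hy2 : ∀ i, ‖τ (y i)⁻¹‖ ≤ 1 := fun i => hτ _ (by simp)
    exact etale_dg τ c d (by omega) _ y (fun i _ => norm_eq_one_of τ (hc i) (hc1 i) (hc2 i)) hy1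
      (fun i hi => norm_eq_one_of τ hi (hy1 i) (hy2 i)) (hτ _ (by simp))

omit [DecidableEq κ] [Fintype κ] in
theorem pt_zero (f : κ → MvPolynomial κ ℂ) {d : ℕ} (hd : 1 ≤ d) (hf : ∀ i, (f i).IsHomogeneous d) :
    pt f 0 = 0 := by
  funext i
  change eval 0 (f i) = 0
  have h1 := eval_scale (f i) d (hf i) 0 0
  have h2 : (fun i => (0 : ℂ) * (0 : κ → ℂ) i) = 0 := by
    funext i
    simp
  rw [h2, zero_pow (by omega), zero_mul] at h1
  exact h1

/-- Orbits which become zero. -/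
theorem tame_zero (f : κ → MvPolynomial κ ℂ) {d : ℕ} (hd : 1 ≤ d)
    (hf : ∀ i, (f i).IsHomogeneous d) (y : κ → ℂ) (n0 : ℕ) (hy : (pt f)^[n0] y = 0) :
    Tame f y := by
  classical
  refine ⟨dg 0 1 fun _ => False, 0, ⟨1, n0, fun _ => X, one_pos, fun n hn => ?_⟩, {((1 : ℕ) : ℂ)⁻¹},
    fun p hp τ hτ => ?_⟩
  · have h1 : ∀ n, (pt (dg (0 : κ → ℂ) 1 fun _ => False))^[n] 0 = 0 := by
      intro n
      induction n with
      | zero => rfl
      | succ n ih =>
        rw [Function.iterate_succ_apply', ih]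
        funext i
        rw [pt_dg, if_neg not_false]
    rw [h1]
    have h2 : pt (fun i => (X i : MvPolynomial κ ℂ)) 0 = 0 := by
      funext i
      simp [pt]
    have h3 : pt (X : κ → MvPolynomial κ ℂ) 0 = 0 := h2
    rw [h3]
    obtain ⟨l, rfl⟩ := Nat.exists_eq_add_of_le hn
    rw [Nat.add_comm, Function.iterate_add_apply, hy]
    clear hy h1 h2 h3
    induction l with
    | zero => rfl
    | succ l ih =>
      rw [Function.iterate_succ_apply', ih (by omega), pt_zero f hd hf]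
  · exact etale_dg τ 0 1 one_ne_zero _ 0 (fun i h => h.elim) (fun i => by simp)
      (fun i h => h.elim) (hτ _ (by simp))

omit [Fintype κ] [DecidableEq κ] in
theorem pt_smul' (f : κ → MvPolynomial κ ℂ) {d : ℕ} (hf : ∀ i, (f i).IsHomogeneous d)
    (c : ℂ) (x : κ → ℂ) (n : ℕ) : (pt f)^[n] (c • x) = c ^ d ^ n • (pt f)^[n] x := by
  have h := iterate_scale f d hf c x n
  exact h

/-- Points whose class in projective space is preperiodic. -/
theorem tame_preper (i0 : κ) (f : κ → MvPolynomial κ ℂ) {d : ℕ} (hd : 2 ≤ d)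
    (hf : ∀ i, (f i).IsHomogeneous d) (y : κ → ℂ) (n0 q : ℕ) (hq : 0 < q) (c : ℂ)
    (hy : (pt f)^[n0 + q] y = c • (pt f)^[n0] y) : Tame f y := by
  classical
  by_cases hc : c = 0
  · rw [hc, zero_smul] at hy
    exact tame_zero f (by omega) hf y _ hy
  -- the periodicity
  have hy' : ∀ l, (pt f)^[n0 + l + q] y = c ^ d ^ l • (pt f)^[n0 + l] y := by
    intro l
    have e1 : n0 + l + q = l + (n0 + q) := by ring
    have e2 : n0 + l = l + n0 := by ring
    rw [e1, Function.iterate_add_apply, hy, pt_smul' f hf, e2, Function.iterate_add_apply]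
  have hpos : 0 < d ^ n0 * (d ^ q - 1) := by
    have h1 : 2 ≤ d ^ q := hd.trans (Nat.le_self_pow (by omega) d)
    exact Nat.mul_pos (pow_pos (by omega) _) (by omega)
  obtain ⟨μ, hμ⟩ := IsAlgClosed.exists_pow_nat_eq c hpos
  have hμ0 : μ ≠ 0 := by
    rintro rfl
    rw [zero_pow hpos.ne'] at hμ
    exact hc hμ.symm
  let v : ℕ → κ → ℂ := fun n => (μ ^ d ^ n)⁻¹ • (pt f)^[n] y
  have hv1 : ∀ n, n0 ≤ n → v (n + q) = v n := by
    intro n hn
    obtain ⟨l, rfl⟩ := Nat.exists_eq_add_of_le hn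
    have e1 : μ ^ d ^ (n0 + l + q) = c ^ d ^ l * μ ^ d ^ (n0 + l) := by
      rw [← hμ, ← pow_mul, ← pow_add]
      congr 1
      have h1 : 1 ≤ d ^ q := Nat.one_le_pow _ _ (by omega)
      obtain ⟨e, he⟩ := Nat.exists_eq_add_of_le h1
      rw [pow_add, pow_add, he]
      simp only [Nat.add_sub_cancel_left]
      ring
    simp only [v]
    rw [hy' l, smul_smul, e1, mul_inv, mul_right_comm, inv_mul_cancel₀ (pow_ne_zero _ hc), one_mul]
  have hv2 : ∀ n, n0 ≤ n → ∀ t, v (n + q * t) = v n := by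
    intro n hn t
    induction t with
    | zero => simp
    | succ t ih =>
      have e : n + q * (t + 1) = n + q * t + q := by ring
      rw [e, hv1 _ (by omega), ih]
  have hv : ∀ n, n0 ≤ n → v n = v (n % q + q * n0) := by
    intro n hn
    have hdiv := Nat.mod_add_div n q
    have hge : n0 ≤ n % q + q * n0 := by nlinarith [Nat.zero_le (n % q)]
    have h1 := hv2 _ hge (n / q)
    have h2 := hv2 n hn n0
    rw [← h1, ← h2]
    congr 1
    nlinarith
  refine ⟨dg 1 d fun i => i = i0, Pi.single i0 μ, ⟨q, n0, fun r i => C (v (r + q * n0) i) * X i0,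
    hq, fun n hn => ?_⟩, {μ, μ⁻¹, (d : ℂ)⁻¹}, fun p hp τ hτ => ?_⟩
  · have h1 : ∀ n, (pt (dg (1 : κ → ℂ) d fun i => i = i0))^[n] (Pi.single i0 μ) i0 = μ ^ d ^ n := by
      intro n
      induction n with
      | zero => simp
      | succ n ih =>
        rw [Function.iterate_succ_apply', pt_dg, if_pos rfl, ih, Pi.one_apply, one_mul, ← pow_mul,
          ← pow_succ]
    funext i
    change _ = eval _ (C (v (n % q + q * n0) i) * X i0)
    rw [map_mul, eval_C, eval_X, h1, ← hv n hn]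
    simp only [v, Pi.smul_apply, smul_eq_mul]
    rw [mul_comm (μ ^ d ^ n)⁻¹, mul_assoc, inv_mul_cancel₀ (pow_ne_zero _ hμ0), mul_one]
  · have h1 : ‖τ μ‖ ≤ 1 := hτ _ (by simp)
    have h2 : ‖τ μ⁻¹‖ ≤ 1 := hτ _ (by simp)
    have h3 := norm_eq_one_of τ hμ0 h1 h2
    refine etale_dg τ 1 d (by omega) _ _ (fun i _ => by simp) (fun i => ?_) (fun i hi => ?_)
      (hτ _ (by simp))
    · by_cases hi : i = i0
      · rw [hi, Pi.single_eq_same]
        exact h1
      · rw [Pi.single_eq_of_ne hi, map_zero, norm_zero]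
        exact zero_le_one
    · rw [hi, Pi.single_eq_same]
      exact h3

end Pool.Agent.L5helper26.DM
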