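import Pool.Agent.Y199.DM.NfT

set_option autoImplicit false

/-! Algebraic numbers which are not near to a given number are integral with respect to it outside
an integer which does not depend on them. -/

namespace Pool.Agent.L5helper26.DM

open Polynomial Pool.Agent.H936R2 Pool.Agent.Y199.DM Pool.Agent.Y152.BD

theorem dvd_factorial_pow (D : ℕ) : ∀ n : ℕ, n ≠ 0 → (∀ p : ℕ, p.Prime → p ∣ n → p ≤ D) →
    ∃ k : ℕ, n ∣ (D.factorial) ^ k := by
  intro n
  induction n using Nat.recOnMul with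
  | zero => exact fun h => absurd rfl h
  | one => exact fun _ _ => ⟨0, one_dvd _⟩
  | prime p hp =>
    exact fun _ h => ⟨1, by
      rw [pow_one]
      exact (Nat.Prime.dvd_factorial hp).2 (h p hp dvd_rfl)⟩
  | mul a b ha hb =>
    intro hab h
    obtain ⟨k, hk⟩ := ha (left_ne_zero_of_mul hab) fun p hp hd => h p hp (hd.mul_right b)
    obtain ⟨l, hl⟩ := hb (right_ne_zero_of_mul hab) fun p hp hd => h p hp (hd.mul_left a)
    exact ⟨k + l, by
      rw [pow_add]
      exact mul_dvd_mul hk hl⟩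

theorem near_or_integral (s : Finset ℂ) : ∃ m : ℕ, 1 ≤ m ∧ ∀ a t : ℂ, IsAlgebraic ℚ a →
    IsAlgebraic ℚ t → t ≠ a → Near s a t ∨ ∃ k : ℕ, IsIntegral ℤ ((m : ℂ) ^ k * (t - a)⁻¹) := by
  obtain ⟨D, hD⟩ := emb_zero s
  refine ⟨D.factorial, Nat.factorial_pos D, fun a t ha ht hne => ?_⟩
  have hu0 : t - a ≠ 0 := sub_ne_zero.2 hne
  have hu : IsAlgebraic ℚ (t - a) := ht.sub ha
  obtain ⟨P, hP0, hPu⟩ := (IsFractionRing.isAlgebraic_iff ℤ ℚ ℂ).mpr hu
  obtain ⟨G, hG, -, hGu⟩ := DegLE.exists_irreducible (d := P.natDegree) (τ := t - a)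
    ⟨P, hP0, le_rfl, hPu⟩
  by_cases hp : ∃ p : ℕ, p.Prime ∧ D < p ∧ (p : ℤ) ∣ G.coeff 0
  · obtain ⟨p, hp, hlt, hdvd⟩ := hp
    have hpf : Fact p.Prime := ⟨hp⟩
    obtain ⟨τ, h1, h2⟩ := hD p hlt (t - a) G hG hGu hdvd
    exact Or.inl ⟨p, hpf, τ, h1, h2⟩
  · push Not at hp
    right
    have hc0 : G.coeff 0 ≠ 0 := by
      intro h0
      obtain ⟨Q, hQ⟩ := X_dvd_iff.2 h0
      rcases hG.isUnit_or_isUnit hQ with h | h
      · exact not_isUnit_X h
      · have h1 : aeval (t - a) G = (t - a) * aeval (t - a) Q := by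
          rw [hQ, map_mul, aeval_X]
        rw [hGu] at h1
        obtain ⟨r, hr, hrQ⟩ := Polynomial.isUnit_iff.1 h
        rcases mul_eq_zero.1 h1.symm with h2 | h2
        · exact hu0 h2
        · rw [← hrQ, aeval_C] at h2
          have h3 : ((r : ℤ) : ℂ) = 0 := h2
          rcases Int.isUnit_iff.1 hr with rfl | rfl <;> norm_num at h3
    obtain ⟨k, hk⟩ := dvd_factorial_pow D (G.coeff 0).natAbs (Int.natAbs_ne_zero.2 hc0)
      (fun p hp' hd => by
        by_contra hlt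
        exact hp p hp' (not_le.1 hlt) (Int.natCast_dvd.2 hd))
    refine ⟨k, ?_⟩
    have hk' : G.coeff 0 ∣ ((D.factorial : ℕ) : ℤ) ^ k := by
      have := Int.natCast_dvd_natCast.2 hk
      rw [Int.natCast_natAbs, Nat.cast_pow] at this
      exact (abs_dvd _ _).1 this
    obtain ⟨c, hc⟩ := hk'
    have hrev : aeval ((t - a)⁻¹) G.reverse = 0 := by
      letI : Invertible (t - a) := invertibleOfNonzero hu0
      rw [aeval_def]
      have h2 := (eval₂_reverse_eq_zero_iff (algebraMap ℤ ℂ) (t - a) G).2 (by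
        rw [← aeval_def]
        exact hGu)
      rwa [invOf_eq_inv] at h2
    have hlead : G.reverse.leadingCoeff = G.coeff 0 := by
      rw [reverse_leadingCoeff, trailingCoeff, natTrailingDegree_eq_zero_of_constantCoeff_ne_zero]
      exact hc0
    have hint : IsIntegral ℤ (G.reverse.leadingCoeff • (t - a)⁻¹) :=
      isIntegral_leadingCoeff_smul G.reverse _ hrev
    rw [hlead] at hint
    have h3 : (((D.factorial : ℕ) : ℂ)) ^ k * (t - a)⁻¹ = (c : ℂ) * (G.coeff 0 • (t - a)⁻¹) := by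
      have h4 : (((D.factorial : ℕ) : ℂ)) ^ k = (G.coeff 0 : ℂ) * (c : ℂ) := by
        exact_mod_cast congrArg (fun z : ℤ => (z : ℂ)) hc
      rw [h4, zsmul_eq_mul]
      ring
    rw [h3]
    exact (isIntegral_algebraMap (R := ℤ) (A := ℂ) (x := c)).mul hint

end Pool.Agent.L5helper26.DM
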